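import Pool.Agent.T6.H83.LB.NonArch

/-!
# The local estimates at an archimedean place
-/

set_option autoImplicit false
set_option linter.unusedSectionVars false
set_option linter.unusedVariables false

namespace Pool.Agent.T6.H83.LB

open Finset Polynomial

variable {α : Type*} [DecidableEq α] {F : Type*} [NormedField F]

/-- product of the distances to the near zeros -/
lemma arch_prod {A : Finset α} {w : α → F} {f : α → α} {d : ℕ} {g : F[X]}
    (h : Sys A w f d g) {c : α} (hc : c ∈ A) (z : Fin d → F)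
    (hz : ∀ t, ‖g.eval t - w c‖ = ∏ i, ‖t - z i‖) {M κ σ : ℝ} (hM : 0 < M) (hκ : 8 ≤ κ)
    (hσ : 0 < σ) (hmax : ∀ x ∈ A, ∀ y ∈ A, dst w x y ≤ M) (I : Finset (Fin d)) {x : α}
    (hx : x ∈ A) (hfar : ∀ i ∈ I, σ ≤ ‖w x - z i‖)
    (hI : (1 ≤ I.card ∧ M ≤ κ * σ) ∨ ∃ j ∈ I, M / 8 ≤ ‖w x - z j‖) :
    (∏ i ∈ Iᶜ, ‖w x - z i‖) * σ ^ (I.card - 1) ≤ κ := by
  classical
  have hall : ∏ i, ‖w x - z i‖ ≤ M := by
    rw [← hz, h.ev x hx]
    exact hmax _ (h.inv x hx) _ hc
  rw [← prod_compl_mul_prod I (fun i => ‖w x - z i‖)] at hall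
  set Q := ∏ i ∈ Iᶜ, ‖w x - z i‖ with hQ
  have hQ0 : 0 ≤ Q := prod_nonneg fun i _ => norm_nonneg _
  rcases hI with ⟨h1, h2⟩ | ⟨j, hj, h2⟩
  · have h3 : σ ^ I.card ≤ ∏ i ∈ I, ‖w x - z i‖ := pow_le_prod _ _ _ hσ.le hfar
    have h4 : Q * σ ^ I.card ≤ κ * σ := ((mul_le_mul_of_nonneg_left h3 hQ0).trans hall).trans h2
    have h5 : σ ^ I.card = σ ^ (I.card - 1) * σ := by rw [← pow_succ]; congr 1; omega
    rw [h5, ← mul_assoc] at h4
    exact le_of_mul_le_mul_right h4 hσ
  · have h3 : M / 8 * σ ^ (I.card - 1) ≤ ∏ i ∈ I, ‖w x - z i‖ := by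
      rw [← mul_prod_erase I (fun i => ‖w x - z i‖) hj, ← card_erase_of_mem hj]
      refine mul_le_mul h2 ?_ (by positivity) (norm_nonneg _)
      exact pow_le_prod _ _ _ hσ.le fun i hi => hfar i (mem_of_mem_erase hi)
    have h4 : Q * (M / 8 * σ ^ (I.card - 1)) ≤ M := (mul_le_mul_of_nonneg_left h3 hQ0).trans hall
    have h5 : (Q * σ ^ (I.card - 1)) * M ≤ 8 * M := by
      have : Q * (M / 8 * σ ^ (I.card - 1)) = (Q * σ ^ (I.card - 1)) * M / 8 := by ring
      rw [this] at h4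
      linarith
    exact (le_of_mul_le_mul_right h5 hM).trans hκ

/-- if the diameter of `A` is large there are zeros far away from any given point -/
lemma arch_far_zero {A : Finset α} {w : α → F} {f : α → α} {d : ℕ} {g : F[X]}
    (h : Sys A w f d g) (hd : 2 ≤ d) {c : α} (hc : c ∈ A) (z : Fin d → F)
    (hz : ∀ t, ‖g.eval t - w c‖ = ∏ i, ‖t - z i‖) {p q : α} (hp : p ∈ A) (hq : q ∈ A)
    (hmax : ∀ x ∈ A, ∀ y ∈ A, dst w x y ≤ dst w p q) (hM : 16 < dst w p q) (b : α) :
    ∃ j, dst w p q / 4 ≤ ‖w b - z j‖ := by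
  set M := dst w p q with hMdef
  have h1 : ∃ s ∈ A, M / 2 ≤ ‖w s - w b‖ := by
    have h2 : M ≤ ‖w p - w b‖ + ‖w q - w b‖ := by
      have := norm_sub_le_norm_sub_add_norm_sub (w p) (w b) (w q)
      rw [norm_sub_rev (w b) (w q)] at this
      exact this
    by_contra hcon
    push Not at hcon
    have h3 := hcon p hp
    have h4 := hcon q hq
    linarith
  obtain ⟨s, hs, hsb⟩ := h1
  by_contra hcon
  push Not at hcon
  have h3 : ∀ i ∈ (univ : Finset (Fin d)), M / 4 ≤ ‖w s - z i‖ := by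
    intro i _
    have h4 := norm_sub_le_norm_sub_add_norm_sub (w s) (z i) (w b)
    have h5 := hcon i
    rw [norm_sub_rev] at h5
    linarith
  have h4 := pow_le_prod univ (fun i => ‖w s - z i‖) (M / 4) (by linarith) h3
  rw [card_univ, Fintype.card_fin, ← hz, h.ev s hs] at h4
  have h5 := h4.trans (hmax _ (h.inv s hs) _ hc)
  have h6 : (M / 4) ^ 2 ≤ (M / 4) ^ d := pow_le_pow_right₀ (by linarith) hd
  nlinarith

/-- Small monic polynomials of all degrees. -/
theorem basis_arch [IsAlgClosed F] {A : Finset α} {w : α → F} {f : α → α}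
    {d : ℕ} {g : F[X]} (h : Sys A w f d g) (hd : 2 ≤ d) {B : Finset α} (hBA : B ⊆ A)
    (hB : B.Nonempty) {R : ℝ} (hR : 16 ≤ R) (hdiam : ∀ x ∈ B, ∀ y ∈ B, dst w x y ≤ R)
    (ℓ : ℕ) (hℓ : 1 ≤ ℓ) :
    ∀ i < d ^ ℓ, SmallOn w B i ((d - 1 : ℝ) * ℓ * Real.log (8 * R) + i * Real.log 8) := by
  classical
  obtain ⟨b, hb⟩ := hB
  have hR0 : 0 < R := by linarith
  have hlog : 0 < Real.log R := Real.log_pos (by linarith)
  have hlog8 : 0 < Real.log (8 * R) := Real.log_pos (by linarith)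
  have hl8 : 0 < Real.log 8 := Real.log_pos (by norm_num)
  obtain ⟨p, hp, q, hq, hmax⟩ := exists_diam w A ⟨b, hBA hb⟩
  have hd1 : (1 : ℝ) ≤ (d : ℝ) - 1 := by
    have : (2 : ℝ) ≤ d := by exact_mod_cast hd
    linarith
  have hℓ1 : (1 : ℝ) ≤ ℓ := by exact_mod_cast hℓ
  intro i hi
  rcases lt_or_ge (8 * R) (dst w p q) with hM | hM
  · obtain ⟨z, hz⟩ := exists_zeros (by omega) g h.deg h.lc (w b)
    obtain ⟨j, hj⟩ := arch_far_zero h hd (hBA hb) z hz hp hq hmax (by linarith) b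
    set M := dst w p q with hMdef
    set I : Finset (Fin d) := univ.filter fun i => 2 * R < ‖w b - z i‖ with hI
    have hjI : j ∈ I := by rw [hI, mem_filter]; exact ⟨mem_univ _, by linarith⟩
    have hcard : 1 ≤ I.card := card_pos.2 ⟨j, hjI⟩
    have hb' : ∀ x ∈ B, ‖w b - w x‖ ≤ R := fun x hx => hdiam b hb x hx
    have hprod : ∀ x ∈ B, (∏ i ∈ Iᶜ, ‖w x - z i‖) * R ^ (I.card - 1) ≤ 8 := by
      intro x hx
      refine arch_prod h (hBA hb) z hz (by linarith) le_rfl hR0 hmax I (hBA hx) ?_ (Or.inr ?_)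
      · intro i hi
        rw [hI, mem_filter] at hi
        have h1 := norm_sub_le_norm_sub_add_norm_sub (w b) (w x) (z i)
        linarith [hb' x hx, hi.2]
      · refine ⟨j, hjI, ?_⟩
        have h1 := norm_sub_le_norm_sub_add_norm_sub (w b) (w x) (z j)
        linarith [hb' x hx]
    have hle : I.card ≤ d := by simpa using card_le_univ I
    have hcc : Iᶜ.card = d - I.card := by rw [card_compl, Fintype.card_fin]
    have hlt : I.card < d := by
      rcases lt_or_eq_of_le hle with h3 | h3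
      · exact h3
      · exfalso
        have h4 := hprod b hb
        have h5 : Iᶜ = ∅ := by rw [← card_eq_zero, hcc, h3, Nat.sub_self]
        rw [h5, prod_empty, one_mul, h3] at h4
        have h6 : R ^ 1 ≤ R ^ (d - 1) := pow_le_pow_right₀ (by linarith) (by omega)
        linarith
    have hk : 1 ≤ d - I.card := by omega
    have h4 : SmallOn w B (d - I.card) (Real.log 8) := by
      rw [← hcc]
      refine smallOn_prod w B z Iᶜ _ fun x hx => ?_
      rw [Real.exp_log (by norm_num)]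
      have h5 := hprod x hx
      have h6 : (1 : ℝ) ≤ R ^ (I.card - 1) := one_le_pow₀ (by linarith)
      have h7 : 0 ≤ ∏ i ∈ Iᶜ, ‖w x - z i‖ := prod_nonneg fun i _ => norm_nonneg _
      nlinarith
    have h5 : SmallOn w B (i % (d - I.card)) ((d - 1 : ℝ) * ℓ * Real.log (8 * R)) := by
      have h6 : SmallOn w B 1 (Real.log R) := SmallOn.lin (b := b) fun x hx => by
        rw [Real.exp_log hR0]
        exact hdiam x hx b hb
      have h7 := h6.pow (i % (d - I.card))
      rw [mul_one] at h7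
      refine h7.mono ?_
      have h8 : i % (d - I.card) + 1 ≤ d := by
        have := Nat.mod_lt i (by omega : 0 < d - I.card)
        omega
      have h9 : ((i % (d - I.card) : ℕ) : ℝ) + 1 ≤ d := by exact_mod_cast h8
      have h10 : Real.log R ≤ Real.log (8 * R) := Real.log_le_log hR0 (by linarith)
      have h11 : ((i % (d - I.card) : ℕ) : ℝ) ≤ (d - 1 : ℝ) * ℓ := by nlinarith
      calc ((i % (d - I.card) : ℕ) : ℝ) * Real.log R
          ≤ ((i % (d - I.card) : ℕ) : ℝ) * Real.log (8 * R) :=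
            mul_le_mul_of_nonneg_left h10 (Nat.cast_nonneg _)
        _ ≤ (d - 1 : ℝ) * ℓ * Real.log (8 * R) := mul_le_mul_of_nonneg_right h11 hlog8.le
    refine (SmallOn.mix hk h4 i h5).mono ?_
    have h6 : ((i / (d - I.card) : ℕ) : ℝ) ≤ i := by exact_mod_cast Nat.div_le_self _ _
    nlinarith
  · refine ((smallOn_digits h hd (hBA hb) hlog8.le ?_ ℓ i hi).subset hBA).mono ?_
    · intro x hx y hy
      rw [Real.exp_log (by linarith)]
      exact (hmax x hx y hy).trans hM
    · have : (0 : ℝ) ≤ i * Real.log 8 := by positivity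
      linarith

/-- The energy at an archimedean place: upper bound in terms of the diameter. -/
theorem loss_arch [IsAlgClosed F] {A : Finset α} {w : α → F} {f : α → α}
    {d : ℕ} {g : F[X]} (hw : ∀ x ∈ A, ∀ y ∈ A, w x = w y → x = y)
    (h : Sys A w f d g) (hd : 2 ≤ d) {B : Finset α} (hBA : B ⊆ A)
    {R : ℝ} (hR : 16 ≤ R) (hdiam : ∀ x ∈ B, ∀ y ∈ B, dst w x y ≤ R)
    (ℓ : ℕ) (hℓ : 1 ≤ ℓ) (hcard : B.card ≤ d ^ ℓ) :
    energy (dst w) B ≤ 2 * B.card * Real.log B.card +
      2 * B.card * ((d - 1 : ℝ) * ℓ * Real.log (8 * R)) + (B.card : ℝ) ^ 2 * Real.log 8 := by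
  rcases B.eq_empty_or_nonempty with rfl | hB
  · simp [energy]
  have h1 := energy_le_arch w B (fun x hx y hy => hw x (hBA hx) y (hBA hy))
    (fun i => (d - 1 : ℝ) * ℓ * Real.log (8 * R) + i * Real.log 8)
    (fun j hj => basis_arch h hd hBA hB hR hdiam ℓ hℓ j (lt_of_lt_of_le hj hcard))
  rw [sum_add_distrib, sum_const, card_range, nsmul_eq_mul, ← sum_mul] at h1
  have h2 := sum_div_le B.card 1
  simp only [Nat.div_one] at h2
  have hl8 : 0 < Real.log 8 := Real.log_pos (by norm_num)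
  nlinarith [mul_le_mul_of_nonneg_right h2 hl8.le]

/-- The energy at an archimedean place, with the gain from the zeros outside of a disc. -/
theorem gain_arch [IsAlgClosed F] {A : Finset α} {w : α → F}
    {f' : α → α} {D : ℕ} {g' : F[X]} (hw : ∀ x ∈ A, ∀ y ∈ A, w x = w y → x = y)
    (h' : Sys A w f' D g') (hD : 4 ≤ D)
    {c : α} (hc : c ∈ A) (z : Fin D → F)
    (hz : ∀ t, ‖g'.eval t - w c‖ = ∏ i, ‖t - z i‖)
    {x₀ : α} (hx₀ : x₀ ∈ A) {r : ℝ} (hr : 0 < r) (hr12 : 12 ≤ Real.log r)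
    (J : Finset (Fin D)) (hJ : ∀ i, i ∈ J ↔ ‖w x₀ - z i‖ < r / 2) (hJ2 : 2 * J.card ≤ D)
    {B : Finset α} (hBA : B ⊆ A) (hB : B.Nonempty)
    (hdiam : ∀ x ∈ B, ‖w x - w x₀‖ ≤ r / 3) :
    1 ≤ J.card ∧
    energy (dst w) B ≤ 2 * B.card * Real.log B.card + 2 * B.card * (J.card * Real.log r) -
      B.card * ((B.card + 1) / (J.card : ℝ) - 2) *
        ((1 / 2) * ((D - J.card - 1 : ℝ)) * Real.log r) := by
  classical
  obtain ⟨p, hp, q, hq, hmax⟩ := exists_diam w A ⟨x₀, hx₀⟩
  set M := dst w p q with hMdef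
  have hr1 : 16 < r := by
    have h1 : Real.exp 12 ≤ r := by
      rw [← Real.exp_log hr]; exact Real.exp_le_exp.2 hr12
    have h2 : (1 + 12 : ℝ) ≤ Real.exp 12 := by linarith [Real.add_one_le_exp (12 : ℝ)]
    have h3 : (4 : ℝ) ≤ Real.exp 3 := by linarith [Real.add_one_le_exp (3 : ℝ)]
    have h4 : Real.exp 12 = Real.exp 3 ^ 4 := by rw [← Real.exp_nat_mul]; norm_num
    have h5 : (4 : ℝ) ^ 4 ≤ Real.exp 3 ^ 4 := pow_le_pow_left₀ (by norm_num) h3 4
    rw [← h4] at h5
    norm_num at h5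
    linarith
  set I : Finset (Fin D) := Jᶜ with hI
  have hIc : Iᶜ = J := by rw [hI, compl_compl]
  have hIcard : I.card = D - J.card := by rw [hI, card_compl, Fintype.card_fin]
  have hI2 : 2 ≤ I.card := by omega
  have hfar : ∀ x ∈ B, ∀ i ∈ I, r / 6 ≤ ‖w x - z i‖ := by
    intro x hx i hi
    rw [hI, mem_compl, hJ, not_lt] at hi
    have h1 := norm_sub_le_norm_sub_add_norm_sub (w x₀) (w x) (z i)
    have h2 := hdiam x hx
    rw [norm_sub_rev] at h2
    linarith
  have hprod : ∀ x ∈ B, (∏ i ∈ Iᶜ, ‖w x - z i‖) * (r / 6) ^ (I.card - 1) ≤ 48 := by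
    intro x hx
    rcases le_or_gt M (8 * r) with hM | hM
    · rcases lt_or_eq_of_le (dst_nonneg w p q) with hM0 | hM0
      · refine arch_prod h' hc z hz hM0 (by norm_num) (by linarith) hmax I (hBA hx) (hfar x hx)
          (Or.inl ⟨by omega, by linarith⟩)
      · refine arch_prod h' hc z hz one_pos (by norm_num) (by linarith) ?_ I (hBA hx) (hfar x hx)
          (Or.inl ⟨by omega, by linarith⟩)
        intro x hx y hy
        have := hmax x hx y hy
        linarith
    · obtain ⟨j, hj⟩ := arch_far_zero h' (by omega) hc z hz hp hq hmax (by linarith) x₀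
      refine arch_prod h' hc z hz (by linarith) (by norm_num) (by linarith) hmax I (hBA hx)
          (hfar x hx) (Or.inr ⟨j, ?_, ?_⟩)
      · rw [hI, mem_compl, hJ, not_lt]
        linarith
      · have h1 := norm_sub_le_norm_sub_add_norm_sub (w x₀) (w x) (z j)
        have h2 := hdiam x hx
        rw [norm_sub_rev] at h2
        linarith
  rw [hIc] at hprod
  have hlog6 : Real.log (r / 6) = Real.log r - Real.log 6 := Real.log_div hr.ne' (by norm_num)
  have hl6 : Real.log 6 ≤ 2 := by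
    have h3 : (6 : ℝ) ≤ Real.exp 2 := by
      have h4 : Real.exp 2 = Real.exp 1 ^ 2 := by rw [← Real.exp_nat_mul]; norm_num
      have := Real.exp_one_gt_d9
      rw [h4]; nlinarith
    calc Real.log 6 ≤ Real.log (Real.exp 2) := Real.log_le_log (by norm_num) h3
      _ = 2 := Real.log_exp 2
  have hl48 : Real.log 48 ≤ 4 := by
    have h3 : (48 : ℝ) ≤ Real.exp 4 := by
      have h4 : Real.exp 4 = Real.exp 1 ^ 4 := by rw [← Real.exp_nat_mul]; norm_num
      have := Real.exp_one_gt_d9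
      have h5 : (7.3 : ℝ) ≤ Real.exp 1 ^ 2 := by nlinarith
      rw [h4]
      have h6 : Real.exp 1 ^ 4 = (Real.exp 1 ^ 2) ^ 2 := by ring
      rw [h6]; nlinarith
    calc Real.log 48 ≤ Real.log (Real.exp 4) := Real.log_le_log (by norm_num) h3
      _ = 4 := Real.log_exp 4
  set m : ℕ := I.card - 1 with hm
  have hm1 : 1 ≤ m := by omega
  have hmr : (m : ℝ) = D - J.card - 1 := by
    have h1 : J.card ≤ D := by omega
    rw [hm, hIcard, Nat.cast_sub (by omega), Nat.cast_sub h1]; simp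
  have hm1r : (1 : ℝ) ≤ m := by exact_mod_cast hm1
  have hsmall : ∀ x ∈ B, ∏ i ∈ J, ‖w x - z i‖ ≤ Real.exp (-((1 / 2) * (m : ℝ) * Real.log r)) := by
    intro x hx
    have h1 := hprod x hx
    have h2 : 0 < (r / 6) ^ m := by positivity
    rw [← le_div_iff₀ h2] at h1
    refine h1.trans ?_
    rw [div_le_iff₀ h2]
    have h3 : (r / 6) ^ m = Real.exp (m * Real.log (r / 6)) := by
      rw [Real.exp_nat_mul, Real.exp_log (by positivity)]
    rw [h3, ← Real.exp_add]
    calc (48 : ℝ) = Real.exp (Real.log 48) := (Real.exp_log (by norm_num)).symm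
      _ ≤ _ := Real.exp_le_exp.2 (by rw [hlog6]; nlinarith)
  have hS := smallOn_prod w B z J _ hsmall
  have hJ1 : 1 ≤ J.card := by
    by_contra hcon
    have h0 : J = ∅ := by rw [← card_eq_zero]; omega
    obtain ⟨b, hb⟩ := hB
    have h1 := hsmall b hb
    rw [h0, prod_empty] at h1
    have h2 : Real.exp (-((1 / 2) * (m : ℝ) * Real.log r)) < 1 := by
      rw [Real.exp_lt_one_iff]; nlinarith
    linarith
  refine ⟨hJ1, ?_⟩
  have hP : ∀ i < J.card, SmallOn w B i (J.card * Real.log r) := by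
    intro i hi
    have h6 : SmallOn w B 1 (Real.log r) := SmallOn.lin (b := x₀) fun x hx => by
      rw [Real.exp_log hr]
      exact (hdiam x hx).trans (by linarith)
    have h7 := h6.pow i
    rw [mul_one] at h7
    refine h7.mono ?_
    have : (i : ℝ) ≤ J.card := by exact_mod_cast hi.le
    nlinarith
  have h5 := energy_arch_mix w B (fun x hx y hy => hw x (hBA hx) y (hBA hy)) J.card hJ1
    (J.card * Real.log r) ((1 / 2) * (m : ℝ) * Real.log r) (by nlinarith) hS hP
  rw [hmr] at h5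
  exact h5

end Pool.Agent.T6.H83.LB
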