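import Mathlib

/-!
# Rational numbers which are integral outside a set of primes, and potentially good reduction
-/

set_option autoImplicit false
set_option linter.unusedSectionVars false
set_option linter.unusedVariables false

namespace Pool.Agent.T6.H83.LB

open Finset Polynomial

/-- The product formula as an inequality. -/
theorem global_ineq (T : Finset ℕ) (hT : ∀ p ∈ T, p.Prime) (q : ℚ) (hq : q ≠ 0)
    (h : ∀ p : ℕ, p.Prime → p ∉ T → padicNorm p q ≤ 1) :
    0 ≤ Real.log |(q : ℝ)| + ∑ p ∈ T, Real.log ((padicNorm p q : ℚ) : ℝ) := by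
  set n := q.num.natAbs with hn
  set m := q.den with hm
  have hn0 : n ≠ 0 := by
    rw [hn, Int.natAbs_ne_zero]
    exact Rat.num_ne_zero.2 hq
  have hm0 : m ≠ 0 := q.den_ne_zero
  have hcop : Nat.Coprime n m := q.reduced
  have habs : |(q : ℝ)| = (n : ℝ) / m := by
    have h1 : (q : ℝ) = (q.num : ℝ) / (q.den : ℝ) := by exact_mod_cast (Rat.num_div_den q).symm
    rw [h1, abs_div, Nat.abs_cast, hn, hm, Nat.cast_natAbs, Int.cast_abs]
  have hlog : Real.log |(q : ℝ)| = Real.log n - Real.log m := by
    rw [habs, Real.log_div (by exact_mod_cast hn0) (by exact_mod_cast hm0)]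
  have hval : ∀ p : ℕ, p.Prime → padicValRat p q = (padicValNat p n : ℤ) - padicValNat p m := by
    intro p hp
    rw [padicValRat_def, padicValInt]
  have hnorm : ∀ p : ℕ, p.Prime → Real.log ((padicNorm p q : ℚ) : ℝ) =
      (padicValNat p m : ℝ) * Real.log p - (padicValNat p n : ℝ) * Real.log p := by
    intro p hp
    rw [padicNorm.eq_zpow_of_nonzero hq, hval p hp]
    generalize padicValNat p m = a
    generalize padicValNat p n = b
    push_cast
    rw [Real.log_zpow]
    push_cast
    ring
  have h1 : ∑ p ∈ T, (padicValNat p n : ℝ) * Real.log p ≤ Real.log n := by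
    rw [Real.log_nat_eq_sum_factorization, Finsupp.sum]
    calc ∑ p ∈ T, (padicValNat p n : ℝ) * Real.log p
        = ∑ p ∈ T.filter (fun p => p ∈ n.factorization.support),
            (padicValNat p n : ℝ) * Real.log p := by
          rw [sum_filter_of_ne]
          intro p hp hne
          rw [Finsupp.mem_support_iff]
          intro h0
          apply hne
          have : padicValNat p n = 0 := by
            rw [← Nat.factorization_def n (hT p hp)]; exact h0
          rw [this]; simp
      _ ≤ ∑ p ∈ n.factorization.support, (padicValNat p n : ℝ) * Real.log p := by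
          refine sum_le_sum_of_subset_of_nonneg ?_ ?_
          · intro p hp
            exact (mem_filter.1 hp).2
          · intro p hp _
            have : 0 ≤ Real.log p := Real.log_natCast_nonneg p
            positivity
      _ = _ := by
          refine sum_congr rfl fun p hp => ?_
          rw [Nat.support_factorization] at hp
          rw [Nat.factorization_def n (Nat.prime_of_mem_primeFactors hp)]
  have h2 : Real.log m ≤ ∑ p ∈ T, (padicValNat p m : ℝ) * Real.log p := by
    rw [Real.log_nat_eq_sum_factorization, Finsupp.sum]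
    calc ∑ p ∈ m.factorization.support, ((m.factorization p : ℕ) : ℝ) * Real.log p
        = ∑ p ∈ m.factorization.support, (padicValNat p m : ℝ) * Real.log p := by
          refine sum_congr rfl fun p hp => ?_
          rw [Nat.support_factorization] at hp
          rw [Nat.factorization_def m (Nat.prime_of_mem_primeFactors hp)]
      _ ≤ _ := by
          refine sum_le_sum_of_subset_of_nonneg ?_ ?_
          · intro p hp
            rw [Nat.support_factorization] at hp
            have hpp := Nat.prime_of_mem_primeFactors hp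
            have hdvd := Nat.dvd_of_mem_primeFactors hp
            by_contra hpT
            have h3 := h p hpp hpT
            have : Fact p.Prime := ⟨hpp⟩
            have h4 : padicValNat p n = 0 := by
              apply padicValNat.eq_zero_of_not_dvd
              intro h5
              exact hpp.one_lt.ne' (Nat.eq_one_of_dvd_coprimes hcop h5 hdvd)
            have h5 : 1 ≤ padicValNat p m := one_le_padicValNat_of_dvd hm0 hdvd
            rw [padicNorm.eq_zpow_of_nonzero hq, hval p hpp, h4] at h3
            revert h5 h3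
            generalize padicValNat p m = a
            intro h3 h5
            have h6 : (1 : ℚ) < (p : ℚ) ^ (-(((0 : ℕ) : ℤ) - (a : ℤ))) := by
              apply one_lt_zpow₀
              · exact_mod_cast hpp.one_lt
              · omega
            exact absurd h3 (not_le.2 h6)
          · intro p hp _
            have : 0 ≤ Real.log p := Real.log_natCast_nonneg p
            positivity
  have h3 : ∑ p ∈ T, Real.log ((padicNorm p q : ℚ) : ℝ) =
      ∑ p ∈ T, (padicValNat p m : ℝ) * Real.log p - ∑ p ∈ T, (padicValNat p n : ℝ) * Real.log p := by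
    rw [← sum_sub_distrib]
    exact sum_congr rfl fun p hp => hnorm p (hT p hp)
  rw [hlog, h3]
  linarith

/-- the norm of a rational number in the algebraic closure of `ℚ_p` -/
lemma norm_rat (p : ℕ) [Fact p.Prime] (q : ℚ) :
    ‖((q : ℚ) : PadicAlgCl p)‖ = ((padicNorm p q : ℚ) : ℝ) := by
  have h1 : ((q : ℚ) : PadicAlgCl p) = algebraMap ℚ_[p] (PadicAlgCl p) (q : ℚ_[p]) := by
    rw [map_ratCast]
  rw [h1]
  have h2 : ‖algebraMap ℚ_[p] (PadicAlgCl p) (q : ℚ_[p])‖ = ‖(q : ℚ_[p])‖ :=
    PadicAlgCl.norm_extends p (q : ℚ_[p])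
  rw [h2, Padic.eq_padicNorm]

/-- **Potentially good reduction at the prime `p`**: in some affine coordinate `x = l u + b` over the
algebraic closure of `ℚ_p` the polynomial `f` has `p`-adically integral coefficients and a leading
coefficient which is a `p`-adic unit. -/
def PotGoodAt (p : ℕ) [Fact p.Prime] (f : ℚ[X]) : Prop :=
  ∃ (g : (PadicAlgCl p)[X]) (l b : PadicAlgCl p), l ≠ 0 ∧
    (∀ j, ‖g.coeff j‖ ≤ 1) ∧ ‖g.leadingCoeff‖ = 1 ∧
    C l * g = (f.map (algebraMap ℚ (PadicAlgCl p))).comp (C l * X + C b) - C b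

lemma escape {F : Type*} [NormedField F] [IsUltrametricDist F] (g : F[X])
    (hd : 1 ≤ g.natDegree) (hc : ∀ j, ‖g.coeff j‖ ≤ 1) (hl : ‖g.leadingCoeff‖ = 1) (u : F)
    (hu : 1 < ‖u‖) : ‖u‖ ^ g.natDegree ≤ ‖g.eval u‖ := by
  set d := g.natDegree with hddef
  have h1 : g.eval u = ∑ i ∈ range d, g.coeff i * u ^ i + g.coeff d * u ^ d := by
    rw [eval_eq_sum_range, sum_range_succ]
  have h2 : ‖∑ i ∈ range d, g.coeff i * u ^ i‖ ≤ ‖u‖ ^ (d - 1) := by
    refine IsUltrametricDist.norm_sum_le_of_forall_le_of_nonneg (by positivity) ?_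
    intro i hi
    rw [norm_mul, norm_pow]
    have hi' : i ≤ d - 1 := by rw [mem_range] at hi; omega
    calc ‖g.coeff i‖ * ‖u‖ ^ i ≤ 1 * ‖u‖ ^ (d - 1) :=
          mul_le_mul (hc i) (pow_le_pow_right₀ hu.le hi') (by positivity) zero_le_one
      _ = _ := one_mul _
  have h3 : ‖g.coeff d * u ^ d‖ = ‖u‖ ^ d := by
    rw [norm_mul, norm_pow]
    have : ‖g.coeff d‖ = 1 := hl
    rw [this, one_mul]
  have h4 : g.coeff d * u ^ d = g.eval u - ∑ i ∈ range d, g.coeff i * u ^ i := by
    rw [h1]; ring
  have h5 : ‖u‖ ^ d ≤ max ‖g.eval u‖ ‖∑ i ∈ range d, g.coeff i * u ^ i‖ := by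
    rw [← h3, h4]
    have := dist_triangle_max (g.eval u) 0 (∑ i ∈ range d, g.coeff i * u ^ i)
    simpa [dist_eq_norm] using this
  rcases le_max_iff.1 h5 with h6 | h6
  · exact h6
  · exfalso
    have h7 : ‖u‖ ^ (d - 1) < ‖u‖ ^ d := pow_lt_pow_right₀ hu (by omega)
    linarith [h6.trans h2]

/-- At a prime of potentially good reduction the distances of the points of a finite invariant set
are bounded in terms of the leading coefficient. -/
theorem potGood_le (p : ℕ) [Fact p.Prime] (f : ℚ[X]) (hd : 2 ≤ f.natDegree) (hf : PotGoodAt p f)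
    (A : Finset ℚ) (hA : ∀ x ∈ A, f.eval x ∈ A) :
    ∀ x ∈ A, ∀ y ∈ A, padicNorm p (f.leadingCoeff * (x - y) ^ (f.natDegree - 1)) ≤ 1 := by
  obtain ⟨g, l, b, hl, hc, hlc, hg⟩ := hf
  set ι : ℚ →+* PadicAlgCl p := algebraMap ℚ (PadicAlgCl p) with hι
  set d := f.natDegree with hddef
  have hιx : ∀ x : ℚ, ι x = ((x : ℚ) : PadicAlgCl p) := fun x => by rw [hι]; exact eq_ratCast _ x
  have hndf : (f.map ι).natDegree = d := natDegree_map ι
  have hlin : (C l * X + C b).natDegree = 1 := natDegree_linear hl
  have hlinlc : (C l * X + C b).leadingCoeff = l := leadingCoeff_linear hl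
  have hdeg : ((f.map ι).comp (C l * X + C b) - C b).natDegree = d := by
    rw [natDegree_sub_C, natDegree_comp, hlin, hndf, mul_one]
  have hdegg : g.natDegree = d := by
    have h1 : (C l * g).natDegree = d := by rw [hg, hdeg]
    rwa [natDegree_C_mul hl] at h1
  have hlceq : l * g.leadingCoeff = ι f.leadingCoeff * l ^ d := by
    have h1 : (C l * g).leadingCoeff = ι f.leadingCoeff * l ^ d := by
      rw [hg]
      have h2 : ((f.map ι).comp (C l * X + C b) - C b).leadingCoeff =
          ((f.map ι).comp (C l * X + C b)).leadingCoeff := by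
        apply leadingCoeff_sub_of_degree_lt
        refine lt_of_le_of_lt degree_C_le ?_
        rw [← natDegree_pos_iff_degree_pos, natDegree_comp, hlin, hndf]
        omega
      rw [h2, leadingCoeff_comp (by rw [hlin]; exact one_ne_zero), hlinlc, hndf, leadingCoeff_map]
    rwa [leadingCoeff_mul, leadingCoeff_C] at h1
  have hl0 : 0 < ‖l‖ := norm_pos_iff.2 hl
  have hnorm : ‖ι f.leadingCoeff‖ * ‖l‖ ^ (d - 1) = 1 := by
    have h1 := congrArg norm hlceq
    rw [norm_mul, norm_mul, norm_pow, hlc, mul_one] at h1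
    have h2 : ‖l‖ ^ d = ‖l‖ ^ (d - 1) * ‖l‖ := by rw [← pow_succ]; congr 1; omega
    rw [h2, ← mul_assoc] at h1
    have h3 : (‖ι f.leadingCoeff‖ * ‖l‖ ^ (d - 1)) * ‖l‖ = 1 * ‖l‖ := by rw [← h1, one_mul]
    exact mul_right_cancel₀ hl0.ne' h3
  set u : ℚ → PadicAlgCl p := fun x => (ι x - b) / l with hu
  have hgu : ∀ x : ℚ, g.eval (u x) = u (f.eval x) := by
    intro x
    have h1 := congrArg (fun q => q.eval (u x)) hg
    simp only [eval_mul, eval_C, eval_sub, eval_comp, eval_add, eval_X] at h1
    have h2 : l * u x + b = ι x := by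
      rw [hu]; simp only; field_simp; ring
    rw [h2] at h1
    have h3 : (f.map ι).eval (ι x) = ι (f.eval x) := eval_map_apply (f := ι) (p := f) x
    rw [h3] at h1
    rw [hu]
    simp only
    rw [eq_div_iff hl, mul_comm]
    exact h1
  intro x hx y hy
  obtain ⟨z, hz, hmax⟩ := exists_max_image A (fun x => ‖u x‖) ⟨x, hx⟩
  have hle : ∀ x ∈ A, ‖u x‖ ≤ 1 := by
    intro t ht
    refine (hmax t ht).trans ?_
    by_contra hcon
    push Not at hcon
    have h1 := escape g (by rw [hdegg]; omega) hc hlc (u z) hcon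
    rw [hgu, hdegg] at h1
    have h2 := h1.trans (hmax _ (hA z hz))
    have h3 : ‖u z‖ ^ 1 < ‖u z‖ ^ d := pow_lt_pow_right₀ hcon (by omega)
    rw [pow_one] at h3
    linarith
  have h1 : ‖ι x - ι y‖ ≤ ‖l‖ := by
    have h2 : ι x - ι y = l * (u x - u y) := by
      rw [hu]; simp only; field_simp; ring
    rw [h2, norm_mul]
    have h3 : ‖u x - u y‖ ≤ 1 := by
      have := dist_triangle_max (u x) 0 (u y)
      simp only [dist_eq_norm, sub_zero, zero_sub, norm_neg] at this
      exact this.trans (max_le (hle x hx) (hle y hy))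
    calc ‖l‖ * ‖u x - u y‖ ≤ ‖l‖ * 1 := mul_le_mul_of_nonneg_left h3 hl0.le
      _ = _ := mul_one _
  have h2 : ((padicNorm p (f.leadingCoeff * (x - y) ^ (d - 1)) : ℚ) : ℝ) ≤ 1 := by
    rw [← norm_rat, ← hιx, map_mul, map_pow, map_sub, norm_mul, norm_pow, ← hnorm]
    exact mul_le_mul_of_nonneg_left (pow_le_pow_left₀ (norm_nonneg _) h1 _) (norm_nonneg _)
  exact_mod_cast h2

end Pool.Agent.T6.H83.LB
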