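import Pool.Agent.T6.H83.LB.Energy

/-!
# Energies and monic polynomials which are small on a set
-/

set_option autoImplicit false
set_option linter.unusedSectionVars false
set_option linter.unusedVariables false

namespace Pool.Agent.T6.H83.LB

open Finset Polynomial

variable {α : Type*} [DecidableEq α] {F : Type*} [NormedField F]

/-- the distance function of a family of points of a normed field -/
noncomputable def dst (w : α → F) (x y : α) : ℝ := ‖w x - w y‖

lemma dst_comm (w : α → F) (x y : α) : dst w x y = dst w y x := norm_sub_rev _ _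

lemma dst_nonneg (w : α → F) (x y : α) : 0 ≤ dst w x y := norm_nonneg _

lemma dst_self (w : α → F) (x : α) : dst w x x = 0 := by simp [dst]

/-- `P` is monic of degree `j` and at most `exp l` on `B` -/
def SmallOn (w : α → F) (B : Finset α) (j : ℕ) (l : ℝ) : Prop :=
  ∃ P : F[X], P.Monic ∧ P.natDegree = j ∧ ∀ x ∈ B, ‖P.eval (w x)‖ ≤ Real.exp l

lemma energy_aux (w : α → F) (B : Finset α) (hinj : ∀ x ∈ B, ∀ y ∈ B, w x = w y → x = y)
    (v : Fin B.card ≃ B) :
    energy (dst w) B = 2 * Real.log ‖(Matrix.vandermonde (fun i => w (v i))).det‖ := by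
  rw [energy_eq (dst w) (dst_comm w) B v, Matrix.det_vandermonde, norm_prod, Real.log_prod]
  · congr 1
    refine sum_congr rfl fun i _ => ?_
    rw [norm_prod, Real.log_prod]
    · refine sum_congr rfl fun j _ => ?_
      unfold dst
      rw [norm_sub_rev]
    · intro j hj
      rw [norm_ne_zero_iff, sub_ne_zero]
      intro h
      have := hinj _ (v j).2 _ (v i).2 h
      exact (ne_of_gt (mem_Ioi.1 hj)) (v.injective (Subtype.ext this))
  · intro i _
    rw [norm_prod]
    refine prod_ne_zero_iff.2 fun j hj => ?_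
    rw [norm_ne_zero_iff, sub_ne_zero]
    intro h
    have := hinj _ (v j).2 _ (v i).2 h
    exact (ne_of_gt (mem_Ioi.1 hj)) (v.injective (Subtype.ext this))

lemma vand_pos (w : α → F) (B : Finset α) (hinj : ∀ x ∈ B, ∀ y ∈ B, w x = w y → x = y)
    (v : Fin B.card ≃ B) : 0 < ‖(Matrix.vandermonde (fun i => w (v i))).det‖ := by
  rw [norm_pos_iff, Matrix.det_vandermonde_ne_zero_iff]
  intro i j h
  exact v.injective (Subtype.ext (hinj _ (v i).2 _ (v j).2 h))

theorem energy_le_ultra [IsUltrametricDist F] (w : α → F) (B : Finset α)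
    (hinj : ∀ x ∈ B, ∀ y ∈ B, w x = w y → x = y) (l : ℕ → ℝ)
    (hP : ∀ j < B.card, SmallOn w B j (l j)) :
    energy (dst w) B ≤ 2 * ∑ j ∈ range B.card, l j := by
  classical
  have v : Fin B.card ≃ B := B.equivFin.symm
  choose! P hP1 hP2 hP3 using hP
  rw [energy_aux w B hinj v]
  have h1 := Matrix.det_eval_matrixOfPolynomials_eq_det_vandermonde (fun i => w (v i))
    (fun j : Fin B.card => P j) (fun j => hP2 j j.2) (fun j => hP1 j j.2)
  have h2 : ‖(Matrix.vandermonde (fun i => w (v i))).det‖ ≤ ∏ j : Fin B.card, Real.exp (l j) := by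
    rw [h1]
    refine norm_det_le_ultra _ _ fun i j => ?_
    rw [Matrix.of_apply]
    exact hP3 j j.2 _ (v i).2
  have h3 : Real.log ‖(Matrix.vandermonde (fun i => w (v i))).det‖ ≤ ∑ j ∈ range B.card, l j := by
    refine (Real.log_le_log (vand_pos w B hinj v) h2).trans (le_of_eq ?_)
    rw [← Real.exp_sum, Real.log_exp, Fin.sum_univ_eq_sum_range]
  linarith

theorem energy_le_arch (w : α → F) (B : Finset α)
    (hinj : ∀ x ∈ B, ∀ y ∈ B, w x = w y → x = y) (l : ℕ → ℝ)
    (hP : ∀ j < B.card, SmallOn w B j (l j)) :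
    energy (dst w) B ≤ 2 * B.card * Real.log B.card + 2 * ∑ j ∈ range B.card, l j := by
  classical
  have v : Fin B.card ≃ B := B.equivFin.symm
  choose! P hP1 hP2 hP3 using hP
  rw [energy_aux w B hinj v]
  have h1 := Matrix.det_eval_matrixOfPolynomials_eq_det_vandermonde (fun i => w (v i))
    (fun j : Fin B.card => P j) (fun j => hP2 j j.2) (fun j => hP1 j j.2)
  have h2 : ‖(Matrix.vandermonde (fun i => w (v i))).det‖ ≤
      B.card.factorial * ∏ j : Fin B.card, Real.exp (l j) := by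
    rw [h1]
    refine norm_det_le_fact _ _ fun i j => ?_
    rw [Matrix.of_apply]
    exact hP3 j j.2 _ (v i).2
  have h3 : Real.log ‖(Matrix.vandermonde (fun i => w (v i))).det‖ ≤
      B.card * Real.log B.card + ∑ j ∈ range B.card, l j := by
    refine (Real.log_le_log (vand_pos w B hinj v) h2).trans ?_
    rw [← Real.exp_sum, Real.log_mul (by positivity) (Real.exp_pos _).ne', Real.log_exp,
      Fin.sum_univ_eq_sum_range]
    have h4 : Real.log (B.card.factorial : ℝ) ≤ B.card * Real.log B.card := by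
      rw [← Real.log_pow]
      refine Real.log_le_log (by positivity) ?_
      exact_mod_cast Nat.factorial_le_pow B.card
    linarith
  linarith

lemma sum_div_ge (n k : ℕ) (hk : 1 ≤ k) :
    (n : ℝ) * (n + 1 - 2 * k) / (2 * k) ≤ ∑ j ∈ range n, ((j / k : ℕ) : ℝ) := by
  have hk0 : (0 : ℝ) < k := by exact_mod_cast hk
  have h1 : ∀ j : ℕ, ((j : ℝ) - k + 1) / k ≤ ((j / k : ℕ) : ℝ) := by
    intro j
    rw [div_le_iff₀ hk0]
    have h2 : j < (j / k + 1) * k := by
      nlinarith [Nat.div_add_mod j k, Nat.mod_lt j (by omega : 0 < k)]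
    have h3 : j + 1 ≤ (j / k + 1) * k := h2
    have h4 : ((j : ℝ) + 1) ≤ (((j / k : ℕ) : ℝ) + 1) * k := by exact_mod_cast h3
    nlinarith
  have h2 : ∑ j ∈ range n, (((j : ℝ) - k + 1) / k) = (n : ℝ) * (n + 1 - 2 * k) / (2 * k) := by
    rw [← sum_div]
    have : ∑ j ∈ range n, ((j : ℝ) - k + 1) = n * (n - 1) / 2 - n * k + n := by
      rw [sum_add_distrib, sum_sub_distrib, sum_const, sum_const, card_range]
      have := Finset.sum_range_id_mul_two n
      have h5 : (∑ i ∈ range n, (i : ℝ)) * 2 = n * (n - 1) := by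
        rcases Nat.eq_zero_or_pos n with h | h
        · subst h; simp
        · have h6 : ((∑ i ∈ range n, i) * 2 : ℕ) = ((n * (n - 1) : ℕ)) := this
          have h7 : (((∑ i ∈ range n, i) * 2 : ℕ) : ℝ) = ((n * (n - 1) : ℕ) : ℝ) := by
            exact_mod_cast h6
          push_cast [Nat.cast_sub h] at h7
          simpa using h7
      simp only [nsmul_eq_mul, mul_one]
      linarith
    rw [this]
    field_simp
    ring
  rw [← h2]
  exact sum_le_sum fun j _ => h1 j

lemma sum_div_le (n k : ℕ) :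
    ∑ j ∈ range n, ((j / k : ℕ) : ℝ) ≤ (n : ℝ) ^ 2 / 2 := by
  have h1 : ∑ j ∈ range n, ((j / k : ℕ) : ℝ) ≤ ∑ j ∈ range n, (j : ℝ) :=
    sum_le_sum fun j _ => by exact_mod_cast Nat.div_le_self j k
  refine h1.trans ?_
  have h2 := Finset.sum_range_id_mul_two n
  have h3 : (∑ i ∈ range n, (i : ℝ)) * 2 ≤ (n : ℝ) * n := by
    have : (∑ i ∈ range n, i) * 2 ≤ n * n := by
      rw [h2]; exact Nat.mul_le_mul_left _ (Nat.sub_le _ _)
    have h4 := (Nat.cast_le (α := ℝ)).2 this
    push_cast at h4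
    exact h4
  nlinarith

/-- products of the members of two families -/
lemma SmallOn.mul {w : α → F} {B : Finset α} {i j : ℕ} {l m : ℝ} (h1 : SmallOn w B i l)
    (h2 : SmallOn w B j m) : SmallOn w B (i + j) (l + m) := by
  obtain ⟨P, hP1, hP2, hP3⟩ := h1
  obtain ⟨Q, hQ1, hQ2, hQ3⟩ := h2
  refine ⟨P * Q, hP1.mul hQ1, ?_, fun x hx => ?_⟩
  · rw [hP1.natDegree_mul hQ1, hP2, hQ2]
  · rw [eval_mul, norm_mul, Real.exp_add]
    exact mul_le_mul (hP3 x hx) (hQ3 x hx) (norm_nonneg _) (Real.exp_pos _).le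

lemma SmallOn.one (w : α → F) (B : Finset α) : SmallOn w B 0 0 :=
  ⟨1, monic_one, natDegree_one, fun x _ => by simp⟩

lemma SmallOn.mono {w : α → F} {B : Finset α} {i : ℕ} {l m : ℝ} (h1 : SmallOn w B i l)
    (h : l ≤ m) : SmallOn w B i m := by
  obtain ⟨P, hP1, hP2, hP3⟩ := h1
  exact ⟨P, hP1, hP2, fun x hx => (hP3 x hx).trans (Real.exp_le_exp.2 h)⟩

lemma SmallOn.subset {w : α → F} {B C : Finset α} {i : ℕ} {l : ℝ} (h1 : SmallOn w B i l)
    (h : C ⊆ B) : SmallOn w C i l := by
  obtain ⟨P, hP1, hP2, hP3⟩ := h1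
  exact ⟨P, hP1, hP2, fun x hx => hP3 x (h hx)⟩

lemma SmallOn.pow {w : α → F} {B : Finset α} {i : ℕ} {l : ℝ} (h1 : SmallOn w B i l) (m : ℕ) :
    SmallOn w B (m * i) (m * l) := by
  induction m with
  | zero => simpa using SmallOn.one w B
  | succ m ih =>
    have := ih.mul h1
    have e1 : (m + 1) * i = m * i + i := by ring
    have e2 : ((m + 1 : ℕ) : ℝ) * l = m * l + l := by push_cast; ring
    rw [e1, e2]
    exact this

/-- the linear polynomial `X - w b` -/
lemma SmallOn.lin {w : α → F} {B : Finset α} {b : α} {l : ℝ}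
    (h : ∀ x ∈ B, dst w x b ≤ Real.exp l) : SmallOn w B 1 l :=
  ⟨X - C (w b), monic_X_sub_C _, natDegree_X_sub_C _, fun x hx => by
    simpa [dst] using h x hx⟩

/-- mixing a family of small polynomials with the powers of one more polynomial -/
lemma SmallOn.mix {w : α → F} {B : Finset α} {k : ℕ} (hk : 1 ≤ k) {l μ : ℝ}
    (hh : SmallOn w B k μ) (j : ℕ) (hP : SmallOn w B (j % k) l) :
    SmallOn w B j (l + (j / k : ℕ) * μ) := by
  have h1 := hP.mul (hh.pow (j / k))
  have e1 : j % k + j / k * k = j := by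
    rw [Nat.mul_comm]; exact Nat.mod_add_div j k
  rwa [e1] at h1

/-- The energy of a set on which a monic polynomial of degree `k` is at most `exp (- G)`. -/
theorem energy_ultra_mix [IsUltrametricDist F] (w : α → F) (B : Finset α)
    (hinj : ∀ x ∈ B, ∀ y ∈ B, w x = w y → x = y) (k : ℕ) (hk : 1 ≤ k) (l G : ℝ) (hG : 0 ≤ G)
    (hh : SmallOn w B k (-G)) (hP : ∀ i < B.card, SmallOn w B i l) :
    energy (dst w) B ≤ 2 * B.card * l - B.card * ((B.card + 1) / k - 2) * G := by
  have h1 := energy_le_ultra w B hinj (fun j => l + (j / k : ℕ) * (-G)) (fun j hj =>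
    SmallOn.mix hk hh j (hP _ (lt_of_le_of_lt (Nat.mod_le _ _) hj)))
  refine h1.trans ?_
  rw [sum_add_distrib, ← sum_mul, sum_const, card_range, nsmul_eq_mul]
  have h2 := sum_div_ge B.card k hk
  have hk0 : (0 : ℝ) < k := by exact_mod_cast hk
  have h3 : (B.card : ℝ) * (B.card + 1 - 2 * k) / (2 * k) =
      (B.card : ℝ) * ((B.card + 1) / k - 2) / 2 := by
    field_simp
  rw [h3] at h2
  nlinarith [mul_le_mul_of_nonneg_right h2 hG]

/-- The energy in the general (archimedean) case. -/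
theorem energy_arch_mix (w : α → F) (B : Finset α)
    (hinj : ∀ x ∈ B, ∀ y ∈ B, w x = w y → x = y) (k : ℕ) (hk : 1 ≤ k) (l G : ℝ) (hG : 0 ≤ G)
    (hh : SmallOn w B k (-G)) (hP : ∀ i < k, SmallOn w B i l) :
    energy (dst w) B ≤ 2 * B.card * Real.log B.card + 2 * B.card * l
      - B.card * ((B.card + 1) / k - 2) * G := by
  have h1 := energy_le_arch w B hinj (fun j => l + (j / k : ℕ) * (-G)) (fun j hj =>
    SmallOn.mix hk hh j (hP _ (Nat.mod_lt _ hk)))
  refine h1.trans ?_
  rw [sum_add_distrib, ← sum_mul, sum_const, card_range, nsmul_eq_mul]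
  have h2 := sum_div_ge B.card k hk
  have hk0 : (0 : ℝ) < k := by exact_mod_cast hk
  have h3 : (B.card : ℝ) * (B.card + 1 - 2 * k) / (2 * k) =
      (B.card : ℝ) * ((B.card + 1) / k - 2) / 2 := by
    field_simp
  rw [h3] at h2
  nlinarith [mul_le_mul_of_nonneg_right h2 hG]

end Pool.Agent.T6.H83.LB
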