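import Mathlib

/-!
# Energies of finite sets and determinants of Vandermonde type
-/

set_option autoImplicit false

namespace Pool.Agent.T6.H83.LB

open Finset Polynomial

/-- The sum of the logarithms of the mutual distances `e x y` of the elements of `B`
(over ordered pairs). -/
noncomputable def energy {α : Type*} [DecidableEq α] (e : α → α → ℝ) (B : Finset α) : ℝ :=
  ∑ x ∈ B, ∑ y ∈ B.erase x, Real.log (e x y)

section

variable {α : Type*} [DecidableEq α]

lemma energy_le_of_le (e : α → α → ℝ) (B : Finset α) (t : ℝ)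
    (h : ∀ x ∈ B, ∀ y ∈ B, x ≠ y → Real.log (e x y) ≤ t) :
    energy e B ≤ B.card * (B.card - 1) * t := by
  unfold energy
  calc ∑ x ∈ B, ∑ y ∈ B.erase x, Real.log (e x y)
      ≤ ∑ x ∈ B, ∑ y ∈ B.erase x, t := by
        refine sum_le_sum fun x hx => sum_le_sum fun y hy => ?_
        rw [mem_erase] at hy
        exact h x hx y hy.2 (Ne.symm hy.1)
    _ = B.card * (B.card - 1) * t := by
        have : ∀ x ∈ B, ∑ y ∈ B.erase x, t = ((B.card : ℝ) - 1) * t := by
          intro x hx
          rw [sum_const, card_erase_of_mem hx, nsmul_eq_mul, Nat.cast_sub (card_pos.2 ⟨x, hx⟩)]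
          simp
        rw [sum_congr rfl this, sum_const, nsmul_eq_mul]
        ring

/-- The energy in terms of an enumeration. -/
lemma energy_eq (e : α → α → ℝ) (hs : ∀ x y, e x y = e y x) (B : Finset α) (v : Fin B.card ≃ B) :
    energy e B = 2 * ∑ i, ∑ j ∈ Ioi i, Real.log (e (v i) (v j)) := by
  classical
  have h1 : energy e B = ∑ i : Fin B.card, ∑ j ∈ univ.erase i, Real.log (e (v i) (v j)) := by
    unfold energy
    rw [← sum_coe_sort B (fun x => ∑ y ∈ B.erase x, Real.log (e x y))]
    rw [← Equiv.sum_comp v]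
    refine sum_congr rfl fun i _ => ?_
    symm
    refine sum_bij (fun j _ => (v j : α)) ?_ ?_ ?_ ?_
    · intro j hj
      rw [mem_erase]
      refine ⟨fun h => ?_, (v j).2⟩
      exact (ne_of_mem_erase hj) (v.injective (Subtype.ext h))
    · intro j _ k _ h
      exact v.injective (Subtype.ext h)
    · intro y hy
      obtain ⟨hy1, hy2⟩ := mem_erase.1 hy
      refine ⟨v.symm ⟨y, hy2⟩, ?_, by simp⟩
      rw [mem_erase]
      refine ⟨fun h => hy1 ?_, mem_univ _⟩
      rw [← h]; simp
    · intro j _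
      rfl
  have h2 : ∀ i : Fin B.card, (univ.erase i : Finset (Fin B.card)) = Ioi i ∪ Iio i := by
    intro i
    ext j
    simp only [mem_erase, mem_univ, and_true, mem_union, mem_Ioi, mem_Iio]
    constructor
    · intro h; rcases lt_or_gt_of_ne h with h | h <;> tauto
    · rintro (h | h)
      · exact ne_of_gt h
      · exact ne_of_lt h
  have h3 : ∀ i : Fin B.card, Disjoint (Ioi i) (Iio i) := by
    intro i
    rw [disjoint_left]
    intro j hj hj'
    rw [mem_Ioi] at hj
    rw [mem_Iio] at hj'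
    exact lt_asymm hj hj'
  have h4 : ∑ i : Fin B.card, ∑ j ∈ Iio i, Real.log (e (v i) (v j)) =
      ∑ i : Fin B.card, ∑ j ∈ Ioi i, Real.log (e (v i) (v j)) := by
    rw [sum_comm' (t' := univ) (s' := fun j => Ioi j)]
    · refine sum_congr rfl fun i _ => sum_congr rfl fun j _ => ?_
      rw [hs]
    · intro x y
      simp
  rw [h1]
  simp_rw [h2, sum_union (h3 _)]
  rw [sum_add_distrib, h4]
  ring

end

section det

variable {F : Type*} [NormedField F]

lemma norm_sign_smul {n : ℕ} (σ : Equiv.Perm (Fin n)) (x : F) :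
    ‖(Equiv.Perm.sign σ : ℤˣ) • x‖ = ‖x‖ := by
  rcases Int.units_eq_one_or (Equiv.Perm.sign σ) with h | h <;> rw [h] <;> simp

lemma norm_det_le_ultra [IsUltrametricDist F] {n : ℕ} (M : Matrix (Fin n) (Fin n) F)
    (c : Fin n → ℝ) (hc : ∀ i j, ‖M i j‖ ≤ c j) : ‖M.det‖ ≤ ∏ j, c j := by
  classical
  have h0 : ∀ j : Fin n, 0 ≤ c j := fun j => (norm_nonneg _).trans (hc j j)
  rw [Matrix.det_apply]
  refine IsUltrametricDist.norm_sum_le_of_forall_le_of_nonneg (prod_nonneg fun j _ => h0 j) ?_
  intro σ _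
  rw [norm_sign_smul, norm_prod]
  exact prod_le_prod (fun j _ => norm_nonneg _) fun j _ => hc _ _

lemma norm_det_le_fact {n : ℕ} (M : Matrix (Fin n) (Fin n) F)
    (c : Fin n → ℝ) (hc : ∀ i j, ‖M i j‖ ≤ c j) : ‖M.det‖ ≤ n.factorial * ∏ j, c j := by
  classical
  rw [Matrix.det_apply]
  refine (norm_sum_le _ _).trans ?_
  calc ∑ σ : Equiv.Perm (Fin n), ‖(Equiv.Perm.sign σ : ℤˣ) • ∏ i, M (σ i) i‖
      ≤ ∑ σ : Equiv.Perm (Fin n), ∏ j, c j := by
        refine sum_le_sum fun σ _ => ?_
        rw [norm_sign_smul, norm_prod]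
        exact prod_le_prod (fun j _ => norm_nonneg _) fun j _ => hc _ _
    _ = n.factorial * ∏ j, c j := by
        rw [sum_const, card_univ, Fintype.card_perm, Fintype.card_fin, nsmul_eq_mul]

end det

end Pool.Agent.T6.H83.LB
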