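import Pool.Agent.T6.H83.LB.Energy

/-!
# The global argument: places, medians and energies
-/

set_option autoImplicit false
set_option linter.unusedSectionVars false
set_option linter.unusedVariables false

namespace Pool.Agent.T6.H83.LB

open Finset

/-- `r` is a median of the numbers `δ i`. -/
def Med {D : ℕ} (δ : Fin D → ℝ) (r : ℝ) : Prop :=
  0 ≤ r ∧ D < 2 * (univ.filter fun i => δ i ≤ r).card ∧ 2 * (univ.filter fun i => δ i < r).card ≤ D

lemma exists_med {D : ℕ} (hD : 1 ≤ D) (δ : Fin D → ℝ) (h0 : ∀ i, 0 ≤ δ i) : ∃ r, Med δ r := by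
  classical
  set S : Finset (Fin D) := univ.filter fun j => D < 2 * (univ.filter fun i => δ i ≤ δ j).card
    with hS
  have hne : S.Nonempty := by
    obtain ⟨j, -, hj⟩ := exists_max_image (univ : Finset (Fin D)) δ ⟨⟨0, hD⟩, mem_univ _⟩
    refine ⟨j, ?_⟩
    rw [hS, mem_filter]
    refine ⟨mem_univ _, ?_⟩
    have : (univ.filter fun i => δ i ≤ δ j) = univ := by
      apply filter_true_of_mem
      intro i _
      exact hj i (mem_univ _)
    rw [this, card_univ, Fintype.card_fin]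
    omega
  obtain ⟨j, hjS, hj⟩ := exists_min_image S δ hne
  rw [hS, mem_filter] at hjS
  refine ⟨δ j, h0 j, hjS.2, ?_⟩
  by_contra hcon
  push Not at hcon
  set U : Finset (Fin D) := univ.filter fun i => δ i < δ j with hU
  have hUne : U.Nonempty := by
    rw [← card_pos]; omega
  obtain ⟨k, hkU, hk⟩ := exists_max_image U δ hUne
  have h1 : U = univ.filter fun i => δ i ≤ δ k := by
    ext i
    rw [hU, mem_filter, mem_filter]
    constructor
    · rintro ⟨_, h⟩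
      exact ⟨mem_univ _, hk i (by rw [hU, mem_filter]; exact ⟨mem_univ _, h⟩)⟩
    · rintro ⟨_, h⟩
      rw [hU, mem_filter] at hkU
      exact ⟨mem_univ _, lt_of_le_of_lt h hkU.2⟩
  have h2 : k ∈ S := by
    rw [hS, mem_filter, ← h1]
    exact ⟨mem_univ _, hcon⟩
  have h3 := hj k h2
  rw [hU, mem_filter] at hkU
  exact absurd hkU.2 (not_lt.2 h3)

lemma inter_of_majority {D : ℕ} {S T : Finset (Fin D)} (hS : D < 2 * S.card) (hT : D < 2 * T.card) :
    ∃ i, i ∈ S ∧ i ∈ T := by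
  classical
  have h1 := card_union_add_card_inter S T
  have h2 : (S ∪ T).card ≤ D := by simpa using card_le_univ (S ∪ T)
  have h3 : 0 < (S ∩ T).card := by omega
  obtain ⟨i, hi⟩ := card_pos.1 h3
  exact ⟨i, (mem_inter.1 hi).1, (mem_inter.1 hi).2⟩

/-- two points with medians at most `R` have a common near zero -/
lemma Med.common {D : ℕ} {δ δ' : Fin D → ℝ} {r r' R : ℝ} (h : Med δ r) (h' : Med δ' r')
    (hr : r ≤ R) (hr' : r' ≤ R) : ∃ i, δ i ≤ R ∧ δ' i ≤ R := by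
  classical
  obtain ⟨i, h1, h2⟩ := inter_of_majority h.2.1 h'.2.1
  rw [mem_filter] at h1 h2
  exact ⟨i, h1.2.trans hr, h2.2.trans hr'⟩

/-- medians are Lipschitz functions -/
lemma Med.lip {D : ℕ} {δ δ' : Fin D → ℝ} {r r' t : ℝ} (h : Med δ r) (h' : Med δ' r')
    (ht : ∀ i, δ' i ≤ δ i + t) : r' ≤ r + t := by
  classical
  by_contra hcon
  push Not at hcon
  have h1 : (univ.filter fun i => δ i ≤ r) ⊆ univ.filter fun i => δ' i < r' := by
    intro i hi
    rw [mem_filter] at hi ⊢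
    refine ⟨mem_univ _, ?_⟩
    have := ht i
    linarith [hi.2]
  have h2 := card_le_card h1
  have h3 := h.2.1
  have h4 := h'.2.2
  omega

/-- The properties of a nonarchimedean place which are used: `e` are the distances of the points,
`δ` the distances to the zeros. -/
structure NA {α : Type*} [DecidableEq α] (A : Finset α) (d D ℓ : ℕ) (e : α → α → ℝ)
    (δ : α → Fin D → ℝ) : Prop where
  e_symm : ∀ x y, e x y = e y x
  δ_nonneg : ∀ x i, 0 ≤ δ x i
  tri1 : ∀ x y i, e x y ≤ max (δ x i) (δ y i)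
  tri2 : ∀ x y i, δ x i ≤ max (e x y) (δ y i)
  e_self : ∀ x, e x x = 0
  loss : ∀ B : Finset α, B ⊆ A → ∀ R : ℝ, 1 < R → (∀ x ∈ B, ∀ y ∈ B, e x y ≤ R) →
    energy e B ≤ 2 * B.card * ((d - 1 : ℝ) * ℓ * Real.log R)
  gain : ∀ B : Finset α, B ⊆ A → B.Nonempty → ∀ R : ℝ, 1 < R → (∀ x ∈ B, ∀ y ∈ B, e x y ≤ R) →
    ∀ I : Finset (Fin D), (∀ i, i ∈ I ↔ ∀ x ∈ B, R ≤ δ x i) → 1 ≤ I.card →
    I.card < D ∧
    energy e B ≤ 2 * B.card * ((d - 1 : ℝ) * ℓ * Real.log R) -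
      B.card * ((B.card + 1) / (D - I.card : ℝ) - 2) * ((I.card - 1) * Real.log R)

/-- The properties of the archimedean place which are used: `e` are the distances of the points,
`δ` the distances to the zeros. -/
structure AR {α : Type*} [DecidableEq α] (A : Finset α) (d D ℓ : ℕ) (w : α → ℝ)
    (z : Fin D → ℂ) : Prop where
  inj : ∀ x ∈ A, ∀ y ∈ A, w x = w y → x = y
  loss : ∀ B : Finset α, B ⊆ A → ∀ R : ℝ, 16 ≤ R → (∀ x ∈ B, ∀ y ∈ B, |w x - w y| ≤ R) →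
    energy (fun x y => |w x - w y|) B ≤ 2 * B.card * Real.log B.card +
      2 * B.card * ((d - 1 : ℝ) * ℓ * Real.log (8 * R)) + (B.card : ℝ) ^ 2 * Real.log 8
  gain : ∀ x₀ ∈ A, ∀ r : ℝ, 0 < r → 12 ≤ Real.log r → ∀ J : Finset (Fin D),
    (∀ i, i ∈ J ↔ ‖(w x₀ : ℂ) - z i‖ < r / 2) → 2 * J.card ≤ D →
    ∀ B : Finset α, B ⊆ A → B.Nonempty → (∀ x ∈ B, |w x - w x₀| ≤ r / 3) →
    1 ≤ J.card ∧
    energy (fun x y => |w x - w y|) B ≤ 2 * B.card * Real.log B.card +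
      2 * B.card * (J.card * Real.log r) -
      B.card * ((B.card + 1) / (J.card : ℝ) - 2) *
        ((1 / 2) * ((D - J.card - 1 : ℝ)) * Real.log r)

/-- All the data of the global argument. -/
structure Glob (α ι : Type*) [DecidableEq α] [Fintype ι] where
  A : Finset α
  d : ℕ
  D : ℕ
  ℓ : ℕ
  hd : 2 ≤ d
  hD : 4 ≤ D
  hℓ : 1 ≤ ℓ
  hsD : Fintype.card ι ≤ D
  hDd : D ≤ 4 * (Fintype.card ι + 1) * d
  hcard : A.card ≤ d ^ ℓ
  e : ι → α → α → ℝ
  δ : ι → α → Fin D → ℝ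
  na : ∀ v, NA A d D ℓ (e v) (δ v)
  w : α → ℝ
  z : Fin D → ℂ
  ar : AR A d D ℓ w z
  r : ι → α → ℝ
  hr : ∀ v x, Med (δ v x) (r v x)
  rinf : α → ℝ
  hrinf : ∀ x, Med (fun i => ‖(w x : ℂ) - z i‖) (rinf x)
  prod : ∀ x ∈ A, ∀ y ∈ A, x ≠ y → 0 ≤ (∑ v, Real.log (e v x y)) + Real.log |w x - w y|

namespace Glob

variable {α ι : Type*} [DecidableEq α] [Fintype ι] (G : Glob α ι)

/-- the number of the nonarchimedean places -/
def s : ℕ := Fintype.card ι

/-- the main quantity `(s + 1) d ℓ` -/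
noncomputable def H : ℝ := (Fintype.card ι + 1) * G.d * G.ℓ

lemma d2 : (2 : ℝ) ≤ G.d := by exact_mod_cast G.hd

lemma ℓ1 : (1 : ℝ) ≤ G.ℓ := by exact_mod_cast G.hℓ

lemma D4 : (4 : ℝ) ≤ G.D := by exact_mod_cast G.hD

lemma H_pos : 0 < G.H := by
  have := G.d2
  have := G.ℓ1
  unfold H
  positivity

lemma D_le : (G.D : ℝ) ≤ 4 * G.H := by
  have h1 : (G.D : ℝ) ≤ 4 * (Fintype.card ι + 1) * G.d := by exact_mod_cast G.hDd
  have h2 := G.ℓ1
  have h3 : (0 : ℝ) ≤ (Fintype.card ι + 1) * G.d := by positivity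
  unfold H
  nlinarith

lemma energy_sum (B : Finset α) (hB : B ⊆ G.A) :
    0 ≤ (∑ v, energy (G.e v) B) + energy (fun x y => |G.w x - G.w y|) B := by
  unfold energy
  rw [sum_comm, ← sum_add_distrib]
  refine sum_nonneg fun x hx => ?_
  rw [sum_comm, ← sum_add_distrib]
  refine sum_nonneg fun y hy => ?_
  obtain ⟨h1, h2⟩ := mem_erase.1 hy
  exact G.prod x (hB hx) y (hB h2) (Ne.symm h1)

/-- the distance of two points with small medians -/
lemma e_le (v : ι) {x y : α} {R : ℝ} (hx : G.r v x ≤ R) (hy : G.r v y ≤ R) : G.e v x y ≤ R := by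
  obtain ⟨i, h1, h2⟩ := (G.hr v x).common (G.hr v y) hx hy
  exact ((G.na v).tri1 x y i).trans (max_le h1 h2)

lemma w_le {x y : α} {R : ℝ} (hx : G.rinf x ≤ R) (hy : G.rinf y ≤ R) : |G.w x - G.w y| ≤ 2 * R := by
  obtain ⟨i, h1, h2⟩ := (G.hrinf x).common (G.hrinf y) hx hy
  have h3 := norm_sub_le_norm_sub_add_norm_sub (G.w x : ℂ) (G.z i) (G.w y : ℂ)
  rw [norm_sub_rev (G.z i)] at h3
  have h4 : ‖(G.w x : ℂ) - (G.w y : ℂ)‖ = |G.w x - G.w y| := by
    rw [← Complex.ofReal_sub, Complex.norm_real, Real.norm_eq_abs]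
  rw [h4] at h3
  linarith

lemma log_card_le {B : Finset α} (hB : B ⊆ G.A) (hn : B.Nonempty) :
    Real.log B.card ≤ G.ℓ * (G.d - 1) := by
  have h1 : (B.card : ℝ) ≤ (G.d : ℝ) ^ G.ℓ := by
    exact_mod_cast (card_le_card hB).trans G.hcard
  have h2 : (0 : ℝ) < B.card := by exact_mod_cast card_pos.2 hn
  calc Real.log B.card ≤ Real.log ((G.d : ℝ) ^ G.ℓ) := Real.log_le_log h2 h1
    _ = G.ℓ * Real.log G.d := Real.log_pow _ _
    _ ≤ G.ℓ * (G.d - 1) := by
        refine mul_le_mul_of_nonneg_left ?_ (Nat.cast_nonneg _)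
        have := Real.log_le_sub_one_of_pos (show (0 : ℝ) < G.d by linarith [G.d2])
        linarith

lemma log8_le : Real.log 8 ≤ 2.1 := by
  have h1 : Real.log 8 = 3 * Real.log 2 := by
    rw [show (8 : ℝ) = 2 ^ 3 by norm_num, Real.log_pow]; norm_num
  rw [h1]
  have := Real.log_two_lt_d9
  linarith

lemma log16_le : Real.log 16 ≤ 3 := by
  have h1 : Real.log 16 = 4 * Real.log 2 := by
    rw [show (16 : ℝ) = 2 ^ 4 by norm_num, Real.log_pow]; norm_num
  rw [h1]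
  have := Real.log_two_lt_d9
  linarith

/-- the loss at the archimedean place, in convenient form -/
lemma loss_inf {B : Finset α} (hB : B ⊆ G.A) (hn : B.Nonempty) {R : ℝ} (hR0 : 0 < R)
    (hR : 12 ≤ Real.log R) (h : ∀ x ∈ B, G.rinf x ≤ R) :
    energy (fun x y => |G.w x - G.w y|) B ≤
      B.card * ((8 / 3) * ((G.d - 1 : ℝ) * G.ℓ * Real.log R) + 2.1 * B.card) := by
  have hR16 : 16 ≤ 2 * R := by
    have h1 : (1 : ℝ) + 12 ≤ R := by
      calc (1 : ℝ) + 12 ≤ Real.exp 12 := by linarith [Real.add_one_le_exp (12 : ℝ)]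
        _ ≤ Real.exp (Real.log R) := Real.exp_le_exp.2 hR
        _ = R := Real.exp_log hR0
    linarith
  have h1 := G.ar.loss B hB (2 * R) hR16 (fun x hx y hy => G.w_le (h x hx) (h y hy))
  refine h1.trans ?_
  have h2 := G.log_card_le hB hn
  have h3 : Real.log (8 * (2 * R)) = Real.log 16 + Real.log R := by
    rw [← Real.log_mul (by norm_num) hR0.ne']; congr 1; ring
  rw [h3]
  have h4 := log16_le
  have h5 := log8_le
  have hn0 : (0 : ℝ) ≤ B.card := Nat.cast_nonneg _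
  have hd1 : (0 : ℝ) ≤ (G.d - 1 : ℝ) * G.ℓ := mul_nonneg (by linarith [G.d2]) (Nat.cast_nonneg _)
  have h6 : (G.d - 1 : ℝ) * G.ℓ * (Real.log 16 + Real.log R) ≤
      (G.d - 1 : ℝ) * G.ℓ * 3 + (G.d - 1 : ℝ) * G.ℓ * Real.log R := by
    rw [mul_add]
    have := mul_le_mul_of_nonneg_left h4 hd1
    linarith
  have h7 : (G.d - 1 : ℝ) * G.ℓ * 12 ≤ (G.d - 1 : ℝ) * G.ℓ * Real.log R :=
    mul_le_mul_of_nonneg_left hR hd1
  have h8 : (B.card : ℝ) ^ 2 * Real.log 8 ≤ B.card * (2.1 * B.card) := by nlinarith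
  have h9 : 2 * (B.card : ℝ) * Real.log B.card ≤ B.card * (2 * (G.ℓ * (G.d - 1))) := by
    nlinarith
  have h10 : 2 * (B.card : ℝ) * ((G.d - 1 : ℝ) * G.ℓ * (Real.log 16 + Real.log R)) ≤
      B.card * (2 * ((G.d - 1 : ℝ) * G.ℓ * 3 + (G.d - 1 : ℝ) * G.ℓ * Real.log R)) := by
    nlinarith
  have h11 : (B.card : ℝ) * (2 * (G.ℓ * (G.d - 1)) + 2 * ((G.d - 1 : ℝ) * G.ℓ * 3 +
      (G.d - 1 : ℝ) * G.ℓ * Real.log R)) ≤
      B.card * ((8 / 3) * ((G.d - 1 : ℝ) * G.ℓ * Real.log R)) := by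
    refine mul_le_mul_of_nonneg_left ?_ hn0
    nlinarith
  calc _ ≤ B.card * (2 * (G.ℓ * (G.d - 1))) +
      B.card * (2 * ((G.d - 1 : ℝ) * G.ℓ * 3 + (G.d - 1 : ℝ) * G.ℓ * Real.log R)) +
      B.card * (2.1 * B.card) := by linarith
    _ ≤ _ := by nlinarith [h11]

/-- the loss at a nonarchimedean place -/
lemma loss_v (v : ι) {B : Finset α} (hB : B ⊆ G.A) {R : ℝ} (hR1 : 1 < R)
    (h : ∀ x ∈ B, G.r v x ≤ R) :
    energy (G.e v) B ≤ B.card * (2 * ((G.d - 1 : ℝ) * G.ℓ * Real.log R)) := by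
  have := (G.na v).loss B hB R hR1 (fun x hx y hy => G.e_le v (h x hx) (h y hy))
  linarith

end Glob

end Pool.Agent.T6.H83.LB
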