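import Pool.Agent.T6.H83.LB.GlobI

/-!
# The global argument: the points with the largest median at the archimedean place, and the points
# with small medians
-/

set_option autoImplicit false
set_option linter.unusedSectionVars false
set_option linter.unusedVariables false

namespace Pool.Agent.T6.H83.LB

open Finset

namespace Glob

variable {α ι : Type*} [DecidableEq α] [Fintype ι] [DecidableEq ι] (G : Glob α ι)

lemma rinf_lip (x y : α) : G.rinf y ≤ G.rinf x + |G.w x - G.w y| := by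
  refine (G.hrinf x).lip (G.hrinf y) fun i => ?_
  have h1 := norm_sub_le_norm_sub_add_norm_sub (G.w y : ℂ) (G.w x : ℂ) (G.z i)
  have h2 : ‖(G.w y : ℂ) - (G.w x : ℂ)‖ = |G.w x - G.w y| := by
    rw [← Complex.ofReal_sub, Complex.norm_real, Real.norm_eq_abs, abs_sub_comm]
  rw [h2] at h1
  linarith

/-- One interval at the archimedean place. -/
lemma interval {x₀ : α} (hx₀ : x₀ ∈ G.A) {r : ℝ} (hrx : G.rinf x₀ = r) (hr0 : 0 < r)
    (hr : 12 ≤ Real.log r) {B : Finset α} (hB : B ⊆ G.A) (hn : B.Nonempty)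
    (hdiam : ∀ x ∈ B, |G.w x - G.w x₀| ≤ r / 3)
    (hall : ∀ x ∈ B, ∀ u, G.r u x ≤ G.rinf x) (J : Finset (Fin G.D))
    (hJ : ∀ i, i ∈ J ↔ ‖(G.w x₀ : ℂ) - G.z i‖ < r / 2) :
    (B.card : ℝ) * G.D ≤ 57 * G.H * J.card := by
  classical
  have hn1 : (1 : ℝ) ≤ B.card := by exact_mod_cast card_pos.2 hn
  have hJ2 : 2 * J.card ≤ G.D := by
    have h1 := (G.hrinf x₀).2.2
    rw [hrx] at h1
    have h2 : J ⊆ univ.filter fun i => ‖(G.w x₀ : ℂ) - G.z i‖ < r := by
      intro i hi
      rw [mem_filter]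
      exact ⟨mem_univ _, ((hJ i).1 hi).trans (by linarith)⟩
    have := card_le_card h2
    simp only at h1
    omega
  have hD := G.hD
  obtain ⟨hk1, h2⟩ := G.ar.gain x₀ hx₀ r hr0 hr J hJ hJ2 B hB hn hdiam
  have hlogn := G.log_card_le hB hn
  set n : ℝ := (B.card : ℝ) with hndef
  set k : ℝ := (J.card : ℝ) with hkdef
  set T : ℝ := (G.d - 1 : ℝ) * G.ℓ with hT
  set L : ℝ := Real.log r with hL
  have hk1r : (1 : ℝ) ≤ k := by rw [hkdef]; exact_mod_cast hk1
  have hk2r : 2 * k ≤ G.D := by rw [hkdef]; exact_mod_cast hJ2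
  set a : ℝ := G.D - k - 1 with ha
  have hn0 : 0 < n := by linarith
  have hL0 : 0 < L := by linarith
  have hT0 : 0 ≤ T := by rw [hT]; exact mul_nonneg (by linarith [G.d2]) (Nat.cast_nonneg _)
  -- the nonarchimedean places
  have hr43 : Real.log (4 / 3 * r) ≤ L + 1 / 3 := by
    rw [Real.log_mul (by norm_num) hr0.ne']
    have := Real.log_le_sub_one_of_pos (show (0 : ℝ) < 4 / 3 by norm_num)
    linarith
  have hr1 : 1 < 4 / 3 * r := by
    have h1 : (1 : ℝ) + 12 ≤ r := by
      calc (1 : ℝ) + 12 ≤ Real.exp 12 := by linarith [Real.add_one_le_exp (12 : ℝ)]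
        _ ≤ Real.exp (Real.log r) := Real.exp_le_exp.2 hr
        _ = r := Real.exp_log hr0
    linarith
  have h3 : ∀ u : ι, energy (G.e u) B ≤ n * (2 * (T * (L + 1 / 3))) := by
    intro u
    have h4 := G.loss_v u hB hr1 (fun x hx => by
      have h5 := G.rinf_lip x₀ x
      have h6 := hdiam x hx
      rw [abs_sub_comm] at h6
      have h7 := hall x hx u
      rw [hrx] at h5
      linarith)
    refine h4.trans ?_
    refine mul_le_mul_of_nonneg_left ?_ hn0.le
    have := mul_le_mul_of_nonneg_left hr43 hT0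
    linarith
  have hsum : (∑ u, energy (G.e u) B) ≤ Fintype.card ι * (n * (2 * (T * (L + 1 / 3)))) := by
    refine (sum_le_sum fun u _ => h3 u).trans (le_of_eq ?_)
    rw [sum_const, card_univ, nsmul_eq_mul]
  have htot := G.energy_sum B hB
  have h4 : 0 ≤ n * (Fintype.card ι * (2 * (T * (L + 1 / 3))) + 2 * (G.ℓ * (G.d - 1)) +
      2 * (k * L) - ((n + 1) / k - 2) * ((1 / 2) * a * L)) := by
    calc (0 : ℝ) ≤ _ := htot
      _ ≤ Fintype.card ι * (n * (2 * (T * (L + 1 / 3)))) + (2 * n * (G.ℓ * (G.d - 1)) +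
          2 * n * (k * L) - n * ((n + 1) / k - 2) * ((1 / 2) * a * L)) := by
            have h5 : 2 * n * Real.log n ≤ 2 * n * (G.ℓ * (G.d - 1)) :=
              mul_le_mul_of_nonneg_left hlogn (by linarith)
            linarith
      _ = _ := by ring
  have h5 := nonneg_of_mul_nonneg_right h4 hn0
  have hs0 : (0 : ℝ) ≤ Fintype.card ι := Nat.cast_nonneg _
  have hTd : T ≤ G.d * G.ℓ := by
    rw [hT]
    exact mul_le_mul_of_nonneg_right (by linarith) (Nat.cast_nonneg _)
  have hH : G.H = (Fintype.card ι + 1) * (G.d * G.ℓ) := by unfold H; ring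
  have hTT : (G.ℓ : ℝ) * (G.d - 1) = T := by rw [hT]; ring
  rw [hTT] at h5
  have h6 : Fintype.card ι * (2 * (T * (L + 1 / 3))) + 2 * T ≤ 2.1 * G.H * L := by
    have h7 : (L + 1 / 3) ≤ 1.03 * L := by linarith
    have h8 : T * (L + 1 / 3) ≤ T * (1.03 * L) := mul_le_mul_of_nonneg_left h7 hT0
    have h9 : Fintype.card ι * (2 * (T * (L + 1 / 3))) ≤ Fintype.card ι * (2 * (T * (1.03 * L))) :=
      mul_le_mul_of_nonneg_left (by linarith) hs0
    have h10 : 2 * T ≤ 1 / 6 * (T * L) := by nlinarith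
    have h11 : T * L ≤ G.d * G.ℓ * L := mul_le_mul_of_nonneg_right hTd hL0.le
    have h12 : (Fintype.card ι * 2.06 + 1 / 6) * (T * L) ≤
        (2.1 * (Fintype.card ι + 1)) * (G.d * G.ℓ * L) :=
      mul_le_mul (by linarith) h11 (by positivity) (by positivity)
    rw [hH]
    linarith
  have h7 : ((n + 1) / k - 2) * ((1 / 2) * a) * L ≤ (2.1 * G.H + 2 * k) * L := by linarith
  have h8 := le_of_mul_le_mul_right h7 hL0
  have hk0 : 0 < k := by linarith
  have hD4 := G.D4
  have ha1 : G.D ≤ 4 * a := by rw [ha]; linarith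
  have ha0 : 0 < a := by linarith
  have hDH := G.D_le
  have hHp := G.H_pos
  have h9 : (n + 1) * a - 2 * a * k ≤ (4.2 * G.H + 4 * k) * k := by
    have h10 : ((n + 1) / k - 2) * ((1 / 2) * a) * k = ((n + 1) * a - 2 * a * k) / 2 := by
      field_simp
    have h11 := mul_le_mul_of_nonneg_right h8 hk0.le
    rw [h10] at h11
    linarith
  have h11 : n * a ≤ k * (10 * a + 4.2 * G.H) := by
    have h12 : k * k ≤ k * (2 * a) := mul_le_mul_of_nonneg_left (by linarith) hk0.le
    linarith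
  have h12 : (10 * a + 4.2 * G.H) * G.D ≤ 57 * G.H * a := by
    have h13 : a * G.D ≤ a * (4 * G.H) := mul_le_mul_of_nonneg_left hDH ha0.le
    have h14 : G.H * G.D ≤ G.H * (4 * a) := mul_le_mul_of_nonneg_left ha1 hHp.le
    have h15 : 0 ≤ G.H * a := by positivity
    linarith
  have h13 : (n * G.D) * a ≤ (57 * G.H * k) * a := by
    calc (n * G.D) * a = (n * a) * G.D := by ring
      _ ≤ (k * (10 * a + 4.2 * G.H)) * G.D := mul_le_mul_of_nonneg_right h11 (Nat.cast_nonneg _)
      _ = k * ((10 * a + 4.2 * G.H) * G.D) := by ring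
      _ ≤ k * (57 * G.H * a) := mul_le_mul_of_nonneg_left h12 hk0.le
      _ = _ := by ring
  exact le_of_mul_le_mul_right h13 ha0

/-- at most 12 separated centres are near a given zero -/
lemma packing (C : Finset α)
    (hsep : ∀ x ∈ C, ∀ y ∈ C, x ≠ y → max (G.rinf x) (G.rinf y) / 4 ≤ |G.w x - G.w y|)
    (z : ℂ) (hz : ∀ x ∈ C, ‖(G.w x : ℂ) - z‖ < G.rinf x / 2) : C.card ≤ 12 := by
  classical
  rcases C.eq_empty_or_nonempty with rfl | hn
  · simp
  obtain ⟨x₁, hx₁, hmax⟩ := exists_max_image C G.rinf hn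
  set ρ := G.rinf x₁ with hρ
  have hρ0 : 0 < ρ := by
    have := hz x₁ hx₁
    have h1 := norm_nonneg ((G.w x₁ : ℂ) - z)
    linarith
  have h1 : ∀ x ∈ C, ρ / 3 < G.rinf x := by
    intro x hx
    have h2 := G.rinf_lip x x₁
    have h3 : |G.w x - G.w x₁| ≤ ‖(G.w x : ℂ) - z‖ + ‖(G.w x₁ : ℂ) - z‖ := by
      have h4 := norm_sub_le_norm_sub_add_norm_sub (G.w x : ℂ) z (G.w x₁ : ℂ)
      rw [norm_sub_rev z] at h4
      rwa [← Complex.ofReal_sub, Complex.norm_real, Real.norm_eq_abs] at h4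
    have h4 := hz x hx
    have h5 := hz x₁ hx₁
    linarith
  set t : α → ℝ := fun x => (G.w x - z.re) / (ρ / 12) with ht
  have h2 : ∀ x ∈ C, |t x| < 6 := by
    intro x hx
    have h3 : |G.w x - z.re| ≤ ‖(G.w x : ℂ) - z‖ := by
      have := Complex.abs_re_le_norm ((G.w x : ℂ) - z)
      simpa using this
    have h4 := hz x hx
    have h5 := hmax x hx
    rw [ht]
    simp only
    rw [abs_div, abs_of_pos (show 0 < ρ / 12 by positivity), div_lt_iff₀ (by positivity)]
    linarith
  have h3 : ∀ x ∈ C, ∀ y ∈ C, x ≠ y → 1 < |t x - t y| := by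
    intro x hx y hy hxy
    have h4 := hsep x hx y hy hxy
    have h5 : ρ / 3 < max (G.rinf x) (G.rinf y) := (h1 x hx).trans_le (le_max_left _ _)
    have e : t x - t y = (G.w x - G.w y) / (ρ / 12) := by rw [ht]; simp only; ring
    rw [e, abs_div, abs_of_pos (show 0 < ρ / 12 by positivity), lt_div_iff₀ (by positivity)]
    linarith
  have h4 : C.card ≤ (Icc (-6 : ℤ) 5).card := by
    refine card_le_card_of_injOn (fun x => ⌊t x⌋) ?_ ?_
    · intro x hx
      have h5 := abs_lt.1 (h2 x hx)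
      rw [mem_coe, mem_Icc]
      constructor
      · rw [Int.le_floor]; push_cast; linarith [h5.1]
      · have : ⌊t x⌋ < 6 := by rw [Int.floor_lt]; push_cast; linarith [h5.2]
        show ⌊t x⌋ ≤ 5
        omega
    · intro x hx y hy hxy
      by_contra hne
      have h5 := h3 x hx y hy hne
      have h6 := Int.abs_sub_lt_one_of_floor_eq_floor hxy
      linarith
  simpa using h4

/-- The points whose largest median is at the archimedean place. -/
theorem arch_points (S : Finset α) (hS : S ⊆ G.A)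
    (hprop : ∀ x ∈ S, 0 < G.rinf x ∧ 12 ≤ Real.log (G.rinf x) ∧ ∀ u, G.r u x ≤ G.rinf x) :
    (S.card : ℝ) ≤ 684 * G.H := by
  classical
  set P : Finset (Finset α) := S.powerset.filter fun C =>
    ∀ x ∈ C, ∀ y ∈ C, x ≠ y → max (G.rinf x) (G.rinf y) / 4 ≤ |G.w x - G.w y| with hP
  have hPne : P.Nonempty := ⟨∅, by rw [hP, mem_filter]; simp⟩
  obtain ⟨C, hC, hmax⟩ := exists_max_image P card hPne
  rw [hP, mem_filter, mem_powerset] at hC
  obtain ⟨hCS, hsep⟩ := hC
  have hcover : ∀ y ∈ S, ∃ x ∈ C, |G.w y - G.w x| ≤ G.rinf x / 3 := by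
    intro y hy
    have h1 : ∃ x ∈ C, |G.w y - G.w x| < max (G.rinf x) (G.rinf y) / 4 := by
      by_cases hyC : y ∈ C
      · refine ⟨y, hyC, ?_⟩
        rw [sub_self, abs_zero, max_self]
        linarith [(hprop y hy).1]
      · by_contra hcon
        push Not at hcon
        have h2 : insert y C ∈ P := by
          rw [hP, mem_filter, mem_powerset]
          refine ⟨insert_subset hy hCS, ?_⟩
          intro x hx x' hx' hne
          rw [mem_insert] at hx hx'
          rcases hx with rfl | hx <;> rcases hx' with rfl | hx'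
          · exact absurd rfl hne
          · have := hcon x' hx'
            rwa [max_comm] at this
          · have := hcon x hx
            rwa [abs_sub_comm] at this
          · exact hsep x hx x' hx' hne
        have h3 := hmax _ h2
        rw [card_insert_of_notMem hyC] at h3
        omega
    obtain ⟨x, hx, hlt⟩ := h1
    refine ⟨x, hx, ?_⟩
    have h2 := G.rinf_lip x y
    rw [abs_sub_comm] at h2
    have h3 := (hprop x (hCS hx)).1
    rcases le_total (G.rinf x) (G.rinf y) with h4 | h4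
    · rw [max_eq_right h4] at hlt
      linarith
    · rw [max_eq_left h4] at hlt
      linarith
  set Gr : α → Finset α := fun x => S.filter fun y => |G.w y - G.w x| ≤ G.rinf x / 3 with hGr
  set Jx : α → Finset (Fin G.D) := fun x => univ.filter fun i =>
    ‖(G.w x : ℂ) - G.z i‖ < G.rinf x / 2 with hJx
  have hD0 : (0 : ℝ) < G.D := by linarith [G.D4]
  have h1 : S ⊆ C.biUnion Gr := by
    intro y hy
    obtain ⟨x, hx, hxy⟩ := hcover y hy
    rw [mem_biUnion]
    exact ⟨x, hx, mem_filter.2 ⟨hy, hxy⟩⟩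
  have h2 : (S.card : ℝ) ≤ ∑ x ∈ C, ((Gr x).card : ℝ) := by
    have := (card_le_card h1).trans card_biUnion_le
    exact_mod_cast this
  have h3 : ∀ x ∈ C, ((Gr x).card : ℝ) * G.D ≤ 57 * G.H * (Jx x).card := by
    intro x hx
    obtain ⟨h4, h5, h6⟩ := hprop x (hCS hx)
    refine G.interval (hS (hCS hx)) rfl h4 h5 ((filter_subset _ _).trans hS) ⟨x, ?_⟩ ?_ ?_ (Jx x) ?_
    · rw [mem_filter]
      refine ⟨hCS hx, ?_⟩
      rw [sub_self, abs_zero]; positivity
    · intro y hy
      exact (mem_filter.1 hy).2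
    · intro y hy u
      exact (hprop y (mem_filter.1 hy).1).2.2 u
    · intro i
      simp only [hJx, mem_filter, mem_univ, true_and]
  have h4 : ∑ x ∈ C, (Jx x).card ≤ 12 * G.D := by
    have h5 : ∑ x ∈ C, (Jx x).card =
        ∑ i : Fin G.D, (C.filter fun x => ‖(G.w x : ℂ) - G.z i‖ < G.rinf x / 2).card := by
      simp_rw [hJx, card_filter]
      rw [sum_comm]
    rw [h5]
    calc ∑ i : Fin G.D, (C.filter fun x => ‖(G.w x : ℂ) - G.z i‖ < G.rinf x / 2).card
        ≤ ∑ i : Fin G.D, 12 := by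
          refine sum_le_sum fun i _ => ?_
          refine G.packing _ ?_ (G.z i) fun x hx => (mem_filter.1 hx).2
          intro x hx y hy
          exact hsep x (mem_filter.1 hx).1 y (mem_filter.1 hy).1
      _ = 12 * G.D := by rw [sum_const, card_univ, Fintype.card_fin, smul_eq_mul, mul_comm]
  have h5 : (S.card : ℝ) * G.D ≤ (684 * G.H) * G.D := by
    calc (S.card : ℝ) * G.D ≤ (∑ x ∈ C, ((Gr x).card : ℝ)) * G.D :=
          mul_le_mul_of_nonneg_right h2 hD0.le
      _ = ∑ x ∈ C, ((Gr x).card : ℝ) * G.D := sum_mul _ _ _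
      _ ≤ ∑ x ∈ C, 57 * G.H * (Jx x).card := sum_le_sum h3
      _ = 57 * G.H * ((∑ x ∈ C, (Jx x).card : ℕ) : ℝ) := by rw [← mul_sum]; push_cast; rfl
      _ ≤ 57 * G.H * ((12 * G.D : ℕ) : ℝ) := by
          refine mul_le_mul_of_nonneg_left ?_ (by linarith [G.H_pos])
          exact_mod_cast h4
      _ = _ := by push_cast; ring
  exact le_of_mul_le_mul_right h5 hD0

/-- The points with small medians. -/
theorem small_points (S : Finset α) (hS : S ⊆ G.A)
    (hprop : ∀ x ∈ S, G.rinf x ≤ Real.exp 12 ∧ ∀ u, G.r u x ≤ Real.exp 12) :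
    (S.card : ℝ) ≤ 24 * G.H * (12 * Real.exp 12 + 2) := by
  classical
  have hHp := G.H_pos
  rcases S.eq_empty_or_nonempty with rfl | ⟨a, ha⟩
  · simp only [card_empty, Nat.cast_zero]
    positivity
  set c : α → ℤ := fun x => ⌊3 * (G.w x - G.w a)⌋ with hc
  have hfib : ∀ b ∈ S.image c, ((S.filter fun x => c x = b).card : ℝ) ≤ 24 * G.H := by
    intro b hb
    set B := S.filter fun x => c x = b with hB
    have hBS : B ⊆ S := filter_subset _ _
    have hBn : B.Nonempty := by
      obtain ⟨x, hx, hxb⟩ := mem_image.1 hb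
      exact ⟨x, mem_filter.2 ⟨hx, hxb⟩⟩
    have hn1 : (1 : ℝ) ≤ B.card := by exact_mod_cast card_pos.2 hBn
    have hinf : energy (fun x y => |G.w x - G.w y|) B ≤ B.card * (B.card - 1) * (-1) := by
      refine energy_le_of_le _ B (-1) fun x hx y hy hxy => ?_
      have h1 : c x = c y := by
        rw [(mem_filter.1 hx).2, (mem_filter.1 hy).2]
      have h2 := Int.abs_sub_lt_one_of_floor_eq_floor h1
      have h3 : |G.w x - G.w y| < 1 / 3 := by
        have e : 3 * (G.w x - G.w a) - 3 * (G.w y - G.w a) = 3 * (G.w x - G.w y) := by ring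
        rw [e, abs_mul, abs_of_pos (by norm_num : (0 : ℝ) < 3)] at h2
        linarith
      have h4 : 0 < |G.w x - G.w y| := by
        rw [abs_pos, sub_ne_zero]
        intro h
        exact hxy (G.ar.inj x (hS (hBS hx)) y (hS (hBS hy)) h)
      calc Real.log |G.w x - G.w y| ≤ Real.log (Real.exp (-1)) := by
            refine Real.log_le_log h4 (h3.le.trans ?_)
            rw [Real.exp_neg, one_div]
            refine inv_anti₀ (Real.exp_pos 1) ?_
            have := Real.exp_one_lt_d9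
            linarith
        _ = -1 := Real.log_exp _
    have hE1 : 1 < Real.exp 12 := by
      have := Real.add_one_le_exp (12 : ℝ)
      linarith
    have h3 : ∀ u : ι, energy (G.e u) B ≤ B.card * (2 * ((G.d - 1 : ℝ) * G.ℓ * 12)) := by
      intro u
      have := G.loss_v u (hBS.trans hS) hE1 (fun x hx => (hprop x (hBS hx)).2 u)
      rwa [Real.log_exp] at this
    have hsum : (∑ u, energy (G.e u) B) ≤
        Fintype.card ι * (B.card * (2 * ((G.d - 1 : ℝ) * G.ℓ * 12))) := by
      refine (sum_le_sum fun u _ => h3 u).trans (le_of_eq ?_)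
      rw [sum_const, card_univ, nsmul_eq_mul]
    have htot := G.energy_sum B (hBS.trans hS)
    have h4 : 0 ≤ (B.card : ℝ) * (Fintype.card ι * (24 * ((G.d - 1 : ℝ) * G.ℓ)) -
        ((B.card : ℝ) - 1)) := by
      calc (0 : ℝ) ≤ _ := htot
        _ ≤ Fintype.card ι * (B.card * (2 * ((G.d - 1 : ℝ) * G.ℓ * 12))) +
            B.card * (B.card - 1) * (-1) := by linarith
        _ = _ := by ring
    have h5 := nonneg_of_mul_nonneg_right h4 (by linarith)
    have hs0 : (0 : ℝ) ≤ Fintype.card ι := Nat.cast_nonneg _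
    have hd2 := G.d2
    have hℓ1 := G.ℓ1
    have hTd : (G.d - 1 : ℝ) * G.ℓ ≤ G.d * G.ℓ :=
      mul_le_mul_of_nonneg_right (by linarith) (Nat.cast_nonneg _)
    have h6 : Fintype.card ι * (24 * ((G.d - 1 : ℝ) * G.ℓ)) ≤ Fintype.card ι * (24 * (G.d * G.ℓ)) :=
      mul_le_mul_of_nonneg_left (by linarith) hs0
    have h7 : (1 : ℝ) ≤ G.d * G.ℓ := by nlinarith
    unfold H
    nlinarith
  have h1 : (S.card : ℝ) = ∑ b ∈ S.image c, ((S.filter fun x => c x = b).card : ℝ) := by
    rw [card_eq_sum_card_image c S]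
    push_cast
    rfl
  have h2 : (S.card : ℝ) ≤ (S.image c).card * (24 * G.H) := by
    rw [h1]
    refine (sum_le_sum hfib).trans (le_of_eq ?_)
    rw [sum_const, nsmul_eq_mul]
  have h3 : ((S.image c).card : ℝ) ≤ 12 * Real.exp 12 + 2 := by
    have h4 : S.image c ⊆ Icc ⌊-(6 * Real.exp 12)⌋ ⌊6 * Real.exp 12⌋ := by
      intro b hb
      obtain ⟨x, hx, rfl⟩ := mem_image.1 hb
      have h5 := G.w_le (hprop x hx).1 (hprop a ha).1
      have h6 := abs_le.1 h5
      rw [mem_Icc]
      constructor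
      · exact Int.floor_le_floor (by linarith [h6.1])
      · exact Int.floor_le_floor (by linarith [h6.2])
    have h5 := card_le_card h4
    rw [Int.card_Icc] at h5
    have h6 : ((⌊6 * Real.exp 12⌋ + 1 - ⌊-(6 * Real.exp 12)⌋).toNat : ℝ) ≤
        12 * Real.exp 12 + 2 := by
      have h7 : (0 : ℤ) ≤ ⌊6 * Real.exp 12⌋ + 1 - ⌊-(6 * Real.exp 12)⌋ := by
        have : ⌊-(6 * Real.exp 12)⌋ ≤ ⌊6 * Real.exp 12⌋ :=
          Int.floor_le_floor (by linarith [Real.exp_pos 12])
        omega
      have h8 : ((⌊6 * Real.exp 12⌋ + 1 - ⌊-(6 * Real.exp 12)⌋).toNat : ℝ) =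
          ((⌊6 * Real.exp 12⌋ + 1 - ⌊-(6 * Real.exp 12)⌋ : ℤ) : ℝ) := by
        have := Int.toNat_of_nonneg h7
        exact_mod_cast congrArg (fun t : ℤ => (t : ℝ)) this
      rw [h8]
      push_cast
      have h9 := Int.floor_le (6 * Real.exp 12)
      have h10 := Int.sub_one_lt_floor (-(6 * Real.exp 12))
      linarith
    exact (by exact_mod_cast h5 : ((S.image c).card : ℝ) ≤ _).trans h6
  calc (S.card : ℝ) ≤ (S.image c).card * (24 * G.H) := h2
    _ ≤ (12 * Real.exp 12 + 2) * (24 * G.H) := mul_le_mul_of_nonneg_right h3 (by linarith)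
    _ = _ := by ring

/-- The bound for the whole set. -/
theorem bound : (G.A.card : ℝ) ≤ (24 * (12 * Real.exp 12 + 2) + 684 + 150) * G.H := by
  classical
  have hHp := G.H_pos
  set S₀ := G.A.filter fun x => G.rinf x ≤ Real.exp 12 ∧ ∀ u, G.r u x ≤ Real.exp 12 with hS₀
  set S₁ := G.A.filter fun x => 0 < G.rinf x ∧ 12 ≤ Real.log (G.rinf x) ∧
    ∀ u, G.r u x ≤ G.rinf x with hS₁
  set S₂ := G.A.filter fun x => ∃ v, 0 < G.r v x ∧ 12 ≤ Real.log (G.r v x) ∧
    (∀ u, G.r u x ≤ G.r v x) ∧ G.rinf x ≤ G.r v x with hS₂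
  have h0 := G.small_points S₀ (filter_subset _ _) (fun x hx => (mem_filter.1 hx).2)
  have h1 := G.arch_points S₁ (filter_subset _ _) (fun x hx => (mem_filter.1 hx).2)
  have h2 : (S₂.card : ℝ) ≤ 150 * G.H := by
    by_cases hne : Nonempty ι
    · exact G.nonarch_points S₂ (filter_subset _ _) (fun x hx => (mem_filter.1 hx).2)
    · have : S₂ = ∅ := by
        rw [hS₂, filter_eq_empty_iff]
        rintro x _ ⟨v, _⟩
        exact hne ⟨v⟩
      rw [this]
      simp only [card_empty, Nat.cast_zero]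
      positivity
  have hcov : G.A ⊆ S₀ ∪ (S₁ ∪ S₂) := by
    intro x hx
    rw [mem_union, mem_union]
    by_cases h3 : G.rinf x ≤ Real.exp 12 ∧ ∀ u, G.r u x ≤ Real.exp 12
    · exact Or.inl (mem_filter.2 ⟨hx, h3⟩)
    · right
      have hlog : ∀ t : ℝ, Real.exp 12 < t → 0 < t ∧ 12 ≤ Real.log t := by
        intro t ht
        have ht0 : 0 < t := (Real.exp_pos 12).trans ht
        refine ⟨ht0, ?_⟩
        rw [Real.le_log_iff_exp_le ht0]
        exact ht.le
      by_cases h4 : ∀ u, G.r u x ≤ G.rinf x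
      · left
        have h5 : Real.exp 12 < G.rinf x := by
          by_contra hcon
          push Not at hcon
          exact h3 ⟨hcon, fun u => (h4 u).trans hcon⟩
        exact mem_filter.2 ⟨hx, (hlog _ h5).1, (hlog _ h5).2, h4⟩
      · right
        push Not at h4
        obtain ⟨u₀, hu₀⟩ := h4
        have : Nonempty ι := ⟨u₀⟩
        obtain ⟨v, hv⟩ := Finite.exists_max fun u => G.r u x
        have h5 : G.rinf x < G.r v x := hu₀.trans_le (hv u₀)
        have h6 : Real.exp 12 < G.r v x := by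
          by_contra hcon
          push Not at hcon
          exact h3 ⟨h5.le.trans hcon, fun u => (hv u).trans hcon⟩
        exact mem_filter.2 ⟨hx, v, (hlog _ h6).1, (hlog _ h6).2, hv, h5.le⟩
  have h3 : (G.A.card : ℝ) ≤ S₀.card + (S₁.card + S₂.card) := by
    have h4 := (card_le_card hcov).trans (card_union_le _ _)
    have h5 := card_union_le S₁ S₂
    exact_mod_cast h4.trans (Nat.add_le_add_left h5 _)
  calc (G.A.card : ℝ) ≤ _ := h3
    _ ≤ 24 * G.H * (12 * Real.exp 12 + 2) + (684 * G.H + 150 * G.H) := by linarith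
    _ = _ := by ring

end Glob

end Pool.Agent.T6.H83.LB
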