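import Pool.Agent.T6.H83.LB.GlobN

/-!
# The global argument: the induction over discs at the nonarchimedean places
-/

set_option autoImplicit false
set_option linter.unusedSectionVars false
set_option linter.unusedVariables false

namespace Pool.Agent.T6.H83.LB

open Finset

namespace Glob

variable {α ι : Type*} [DecidableEq α] [Fintype ι] [DecidableEq ι] (G : Glob α ι)

/-- the weight function of the induction -/
noncomputable def phi (S : ℕ) : ℝ := if S < 4 * G.D then (4 * G.D - S : ℝ) / G.D + 1 / 2 else 0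

lemma phi_nonneg (S : ℕ) : 0 ≤ G.phi S := by
  unfold phi
  split_ifs with h
  · have h1 : (S : ℝ) ≤ 4 * G.D := by exact_mod_cast h.le
    have h2 := G.D4
    have : 0 ≤ (4 * G.D - S : ℝ) / G.D := div_nonneg (by linarith) (by linarith)
    linarith
  · exact le_rfl

lemma phi_step (S k : ℕ) (hS : S < 4 * G.D) (hk : 2 * k ≤ G.D) :
    (k : ℝ) / G.D + G.phi (S + k) ≤ G.phi S := by
  have hD := G.D4
  have hD0 : (0 : ℝ) < G.D := by linarith
  have h1 : (S : ℝ) ≤ 4 * G.D := by exact_mod_cast hS.le
  have hk' : 2 * (k : ℝ) ≤ G.D := by exact_mod_cast hk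
  have e : G.phi S = (4 * G.D - S : ℝ) / G.D + 1 / 2 := by unfold phi; rw [if_pos hS]
  rw [e]
  unfold phi
  split_ifs with h
  · push_cast
    have : (k : ℝ) / G.D + ((4 * G.D - (S + k) : ℝ) / G.D) = (4 * G.D - S : ℝ) / G.D := by
      rw [← add_div]; congr 1; ring
    linarith
  · have h2 : (k : ℝ) / G.D ≤ 1 / 2 := by
      rw [div_le_div_iff₀ hD0 (by norm_num)]; linarith
    have h3 : 0 ≤ (4 * G.D - S : ℝ) / G.D := div_nonneg (by linarith) hD0.le
    linarith

/-- The points whose largest median is at a nonarchimedean place. -/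
theorem induct (vm : α → ι) (hvm : ∀ x u, G.r u x ≤ G.r (vm x) x) (n : ℕ) :
    ∀ B : Finset α, B ⊆ G.A → B.card = n →
    (∀ x ∈ B, 0 < G.r (vm x) x ∧ 12 ≤ Real.log (G.r (vm x) x) ∧ G.rinf x ≤ G.r (vm x) x) →
    ∀ I : ι → Finset (Fin G.D), (∀ v, ∀ i ∈ I v, ∀ x ∈ B, ∀ y ∈ B, G.r (vm y) y ≤ G.δ v x i) →
    (B.card : ℝ) ≤ 10 * G.H + 31 * G.H * G.phi (∑ v, (I v).card) := by
  classical
  induction n using Nat.strong_induction_on with
  | _ n ih =>
  intro B hB hcard hprop I hI
  have hHp := G.H_pos
  rcases B.eq_empty_or_nonempty with rfl | hn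
  · have := G.phi_nonneg (∑ v, (I v).card)
    simp only [card_empty, Nat.cast_zero]
    positivity
  obtain ⟨x₀, hx₀, hmax⟩ := exists_max_image B (fun x => G.r (vm x) x) hn
  set R := G.r (vm x₀) x₀ with hR
  obtain ⟨hR0, hR12, hRinf⟩ := hprop x₀ hx₀
  have hall : ∀ x ∈ B, ∀ u, G.r u x ≤ R := fun x hx u => (hvm x u).trans (hmax x hx)
  have hinf : ∀ x ∈ B, G.rinf x ≤ R := fun x hx => ((hprop x hx).2.2).trans (hmax x hx)
  by_cases hS : ∑ v, (I v).card < 4 * G.D
  · set v := vm x₀ with hv
    set W : Finset α := B.filter fun x => G.e v x x₀ < R with hW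
    set J : Finset (Fin G.D) := univ.filter fun i => G.δ v x₀ i < R with hJ
    have hx₀W : x₀ ∈ W := by
      rw [hW, mem_filter, (G.na v).e_self]
      exact ⟨hx₀, hR0⟩
    have hWB : W ⊆ B := filter_subset _ _
    obtain ⟨hd1, hd2⟩ := G.disc v (hWB.trans hB) hx₀W (R := R) rfl hR0 hR12
      (fun x hx => hall x (hWB hx)) (fun x hx => hinf x (hWB hx))
      (fun x hx => (mem_filter.1 hx).2) J (fun i => by rw [hJ, mem_filter]; simp)
    have hdisj : Disjoint (I v) J := by
      rw [disjoint_left]
      intro i hi hiJ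
      rw [hJ, mem_filter] at hiJ
      exact absurd hiJ.2 (not_lt.2 (hI v i hi x₀ hx₀ x₀ hx₀))
    set I' : ι → Finset (Fin G.D) := Function.update I v (I v ∪ J) with hI'
    have hcardI' : ∑ u, (I' u).card = ∑ u, (I u).card + J.card := by
      rw [← add_sum_erase univ (fun u => (I' u).card) (mem_univ v),
        ← add_sum_erase univ (fun u => (I u).card) (mem_univ v)]
      have h1 : (I' v).card = (I v).card + J.card := by
        rw [hI', Function.update_self, card_union_of_disjoint hdisj]
      have h2 : ∑ u ∈ univ.erase v, (I' u).card = ∑ u ∈ univ.erase v, (I u).card := by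
        refine sum_congr rfl fun u hu => ?_
        rw [hI', Function.update_of_ne (ne_of_mem_erase hu)]
      rw [h1, h2]; ring
    have hsub : B \ W ⊆ B := sdiff_subset
    have hlt : (B \ W).card < n := by
      rw [← hcard]
      refine card_lt_card ?_
      refine Finset.ssubset_iff_subset_ne.2 ⟨hsub, fun h => ?_⟩
      have : x₀ ∈ B \ W := by rw [h]; exact hx₀
      exact (mem_sdiff.1 this).2 hx₀W
    have hrec := ih (B \ W).card hlt (B \ W) (hsub.trans hB) rfl
      (fun x hx => hprop x (hsub hx)) I' ?_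
    · rw [hcardI'] at hrec
      have hstep := G.phi_step _ J.card hS hd2
      have hBW : (B.card : ℝ) = W.card + (B \ W).card := by
        have := card_sdiff_add_card_eq_card hWB
        rw [← this]; push_cast; ring
      have hD0 : (0 : ℝ) < G.D := by linarith [G.D4]
      have h5 : (W.card : ℝ) ≤ 31 * G.H * (J.card / G.D) := by
        rw [← mul_div_assoc, le_div_iff₀ hD0]
        exact hd1
      have h6 : 31 * G.H * (J.card / G.D) + 31 * G.H * G.phi (∑ u, (I u).card + J.card) ≤
          31 * G.H * G.phi (∑ u, (I u).card) := by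
        rw [← mul_add]
        exact mul_le_mul_of_nonneg_left hstep (by positivity)
      linarith
    · intro u i hi x hx y hy
      have hxB := hsub hx
      have hyB := hsub hy
      by_cases huv : u = v
      · subst huv
        rw [hI', Function.update_self, mem_union] at hi
        rcases hi with hi | hi
        · exact hI _ i hi x hxB y hyB
        · rw [hJ, mem_filter] at hi
          have hxW : R ≤ G.e (vm x₀) x x₀ := by
            by_contra hcon
            push Not at hcon
            exact (mem_sdiff.1 hx).2 (mem_filter.2 ⟨hxB, hcon⟩)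
          have h1 := (G.na (vm x₀)).tri1 x x₀ i
          rcases le_max_iff.1 (hxW.trans h1) with h2 | h2
          · exact (hmax y hyB).trans h2
          · exact absurd hi.2 (not_lt.2 h2)
      · rw [hI', Function.update_of_ne huv] at hi
        exact hI u i hi x hxB y hyB
  · push Not at hS
    have h1 := G.rest hB hn hR0 hR12 hall hinf I (fun v i hi x hx => hI v i hi x hx x₀ hx₀) hS
    have h2 := G.phi_nonneg (∑ v, (I v).card)
    have h3 : 0 ≤ 31 * G.H * G.phi (∑ v, (I v).card) := by positivity
    linarith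

theorem nonarch_points [Nonempty ι] (B : Finset α) (hB : B ⊆ G.A)
    (hprop : ∀ x ∈ B, ∃ v, 0 < G.r v x ∧ 12 ≤ Real.log (G.r v x) ∧ (∀ u, G.r u x ≤ G.r v x) ∧
      G.rinf x ≤ G.r v x) : (B.card : ℝ) ≤ 150 * G.H := by
  classical
  have h1 : ∀ x, ∃ v, ∀ u, G.r u x ≤ G.r v x := fun x => Finite.exists_max fun u => G.r u x
  choose vm hvm using h1
  have h2 : ∀ x ∈ B, 0 < G.r (vm x) x ∧ 12 ≤ Real.log (G.r (vm x) x) ∧
      G.rinf x ≤ G.r (vm x) x := by
    intro x hx
    obtain ⟨v, h3, h4, h5, h6⟩ := hprop x hx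
    have h7 : G.r v x = G.r (vm x) x := le_antisymm (hvm x v) (h5 (vm x))
    rw [← h7]
    exact ⟨h3, h4, h6⟩
  have h3 := G.induct vm hvm B.card B hB rfl h2 (fun _ => ∅) (by simp)
  have h4 : G.phi (∑ v : ι, ((fun _ => ∅ : ι → Finset (Fin G.D)) v).card) = 4 + 1 / 2 := by
    have hD := G.hD
    have hD0 : (0 : ℝ) < G.D := by linarith [G.D4]
    unfold phi
    simp only [card_empty, sum_const_zero, Nat.cast_zero, sub_zero]
    rw [if_pos (by omega)]
    field_simp
  rw [h4] at h3
  have := G.H_pos
  linarith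

end Glob

end Pool.Agent.T6.H83.LB
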