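import Pool.Agent.T6.H83.LB.Glob

/-!
# The global argument: the points with the largest median at a nonarchimedean place
-/

set_option autoImplicit false
set_option linter.unusedSectionVars false
set_option linter.unusedVariables false

namespace Pool.Agent.T6.H83.LB

open Finset

namespace Glob

variable {α ι : Type*} [DecidableEq α] [Fintype ι] [DecidableEq ι] (G : Glob α ι)

/-- One disc. -/
lemma disc (v : ι) {B : Finset α} (hB : B ⊆ G.A) {x₀ : α} (hx₀ : x₀ ∈ B) {R : ℝ}
    (hRx : G.r v x₀ = R) (hR0 : 0 < R) (hR : 12 ≤ Real.log R)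
    (hall : ∀ x ∈ B, ∀ u, G.r u x ≤ R) (hinf : ∀ x ∈ B, G.rinf x ≤ R)
    (hW : ∀ x ∈ B, G.e v x x₀ < R) (J : Finset (Fin G.D))
    (hJ : ∀ i, i ∈ J ↔ G.δ v x₀ i < R) :
    (B.card : ℝ) * G.D ≤ 31 * G.H * J.card ∧ 2 * J.card ≤ G.D := by
  classical
  have hR1 : 1 < R := by
    by_contra hcon
    push Not at hcon
    have := Real.log_nonpos hR0.le hcon
    linarith
  have hn : B.Nonempty := ⟨x₀, hx₀⟩
  have hn1 : (1 : ℝ) ≤ B.card := by exact_mod_cast card_pos.2 hn
  have hJ2 : 2 * J.card ≤ G.D := by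
    have h1 := (G.hr v x₀).2.2
    have h2 : (univ.filter fun i => G.δ v x₀ i < G.r v x₀) = J := by
      ext i
      rw [mem_filter, hRx, hJ]
      simp
    rwa [h2] at h1
  have hI : ∀ i, i ∈ Jᶜ ↔ ∀ x ∈ B, R ≤ G.δ v x i := by
    intro i
    rw [mem_compl, hJ, not_lt]
    constructor
    · intro h x hx
      have h1 := (G.na v).tri2 x₀ x i
      rcases le_max_iff.1 (h.trans h1) with h2 | h2
      · rw [(G.na v).e_symm] at h2
        exact absurd (hW x hx) (not_lt.2 h2)
      · exact h2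
    · intro h
      exact h x₀ hx₀
  have hIcard : (Jᶜ : Finset (Fin G.D)).card = G.D - J.card := by
    rw [card_compl, Fintype.card_fin]
  have hD := G.hD
  obtain ⟨h1, h2⟩ := (G.na v).gain B hB hn R hR1
    (fun x hx y hy => G.e_le v (hall x hx v) (hall y hy v)) Jᶜ hI (by omega)
  have hk1 : 1 ≤ J.card := by omega
  have hIr : ((Jᶜ : Finset (Fin G.D)).card : ℝ) = G.D - J.card := by
    rw [hIcard, Nat.cast_sub (by omega)]
  rw [hIr] at h2
  set n : ℝ := (B.card : ℝ) with hndef
  set k : ℝ := (J.card : ℝ) with hkdef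
  set T : ℝ := (G.d - 1 : ℝ) * G.ℓ with hT
  set L : ℝ := Real.log R with hL
  have hk1r : (1 : ℝ) ≤ k := by rw [hkdef]; exact_mod_cast hk1
  have hk2r : 2 * k ≤ G.D := by rw [hkdef]; exact_mod_cast hJ2
  have e1 : (G.D : ℝ) - (G.D - k) = k := by ring
  rw [e1] at h2
  set a : ℝ := G.D - k - 1 with ha
  -- the sum over all places
  have hsum : (∑ u, energy (G.e u) B) ≤ Fintype.card ι * (n * (2 * (T * L))) -
      n * ((n + 1) / k - 2) * (a * L) := by
    have h3 : ∀ u : ι, energy (G.e u) B ≤ n * (2 * (T * L)) -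
        (if u = v then n * ((n + 1) / k - 2) * (a * L) else 0) := by
      intro u
      split_ifs with h
      · subst h
        have : 2 * n * (T * L) = n * (2 * (T * L)) := by ring
        rw [this] at h2
        exact h2
      · rw [sub_zero]
        exact G.loss_v u hB hR1 (fun x hx => hall x hx u)
    refine (sum_le_sum fun u _ => h3 u).trans (le_of_eq ?_)
    rw [sum_sub_distrib, sum_const, sum_ite_eq' univ v, card_univ, nsmul_eq_mul]
    simp
  have hinf' := G.loss_inf hB hn hR0 hR hinf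
  have htot := G.energy_sum B hB
  have h4 : 0 ≤ n * (Fintype.card ι * (2 * (T * L)) - ((n + 1) / k - 2) * (a * L) +
      ((8 / 3) * (T * L) + 2.1 * n)) := by
    calc (0 : ℝ) ≤ _ := htot
      _ ≤ (Fintype.card ι * (n * (2 * (T * L))) - n * ((n + 1) / k - 2) * (a * L)) +
          n * ((8 / 3) * (T * L) + 2.1 * n) := by
            have := hinf'
            simp only [← hndef, ← hT, ← hL] at this
            linarith
      _ = _ := by ring
  have hn0 : 0 < n := by linarith
  have h5 := nonneg_of_mul_nonneg_right h4 hn0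
  have hs0 : (0 : ℝ) ≤ Fintype.card ι := Nat.cast_nonneg _
  have hT0 : 0 ≤ T := by rw [hT]; exact mul_nonneg (by linarith [G.d2]) (Nat.cast_nonneg _)
  have hL0 : 0 < L := by linarith
  have hTd : T ≤ G.d * G.ℓ := by
    rw [hT]
    exact mul_le_mul_of_nonneg_right (by linarith) (Nat.cast_nonneg _)
  have hH : G.H = (Fintype.card ι + 1) * (G.d * G.ℓ) := by unfold H; ring
  have h6 : Fintype.card ι * (2 * (T * L)) + (8 / 3) * (T * L) ≤ 3 * G.H * L := by
    have h7 : (Fintype.card ι * 2 + 8 / 3 : ℝ) ≤ 3 * (Fintype.card ι + 1) := by linarith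
    have h8 : T * L ≤ G.d * G.ℓ * L := mul_le_mul_of_nonneg_right hTd hL0.le
    have h9 : 0 ≤ T * L := by positivity
    rw [hH]
    nlinarith
  have h7 : ((n + 1) / k - 2) * a * L ≤ 3 * G.H * L + 0.175 * n * L := by
    nlinarith
  have h8 : ((n + 1) / k - 2) * a ≤ 3 * G.H + 0.175 * n := by
    have : ((n + 1) / k - 2) * a * L ≤ (3 * G.H + 0.175 * n) * L := by linarith
    exact le_of_mul_le_mul_right this hL0
  have hk0 : 0 < k := by linarith
  have hD4 := G.D4
  have ha1 : G.D ≤ 4 * a := by rw [ha]; linarith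
  have ha2 : k ≤ 2 * a := by rw [ha]; linarith
  have ha0 : 0 < a := by linarith
  have h9 : (n + 1) * a - 2 * a * k ≤ (3 * G.H + 0.175 * n) * k := by
    have h10 : ((n + 1) / k - 2) * a * k = (n + 1) * a - 2 * a * k := by
      field_simp
    rw [← h10]
    exact mul_le_mul_of_nonneg_right h8 hk0.le
  have hDH := G.D_le
  have hHp := G.H_pos
  refine ⟨?_, hJ2⟩
  -- 0.65 n a ≤ k (2 a + 3 H)
  have h11 : 0.65 * n * a ≤ k * (2 * a + 3 * G.H) := by nlinarith
  have h12 : (2 * a + 3 * G.H) * G.D ≤ 20 * G.H * a := by nlinarith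
  have h13 : 0.65 * (n * G.D) * a ≤ (20 * G.H * k) * a := by
    calc 0.65 * (n * G.D) * a = (0.65 * n * a) * G.D := by ring
      _ ≤ (k * (2 * a + 3 * G.H)) * G.D := mul_le_mul_of_nonneg_right h11 (Nat.cast_nonneg _)
      _ = k * ((2 * a + 3 * G.H) * G.D) := by ring
      _ ≤ k * (20 * G.H * a) := mul_le_mul_of_nonneg_left h12 hk0.le
      _ = _ := by ring
  have h14 := le_of_mul_le_mul_right h13 ha0
  have h15 : 0 ≤ G.H * k := by positivity
  linarith

/-- The set which remains when many zeros lie outside. -/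
lemma rest {B : Finset α} (hB : B ⊆ G.A) (hn : B.Nonempty) {R : ℝ}
    (hR0 : 0 < R) (hR : 12 ≤ Real.log R)
    (hall : ∀ x ∈ B, ∀ u, G.r u x ≤ R) (hinf : ∀ x ∈ B, G.rinf x ≤ R)
    (I : ι → Finset (Fin G.D)) (hI : ∀ v, ∀ i ∈ I v, ∀ x ∈ B, R ≤ G.δ v x i)
    (hsum : 4 * G.D ≤ ∑ v, (I v).card) : (B.card : ℝ) ≤ 10 * G.H := by
  classical
  have hR1 : 1 < R := by
    by_contra hcon
    push Not at hcon
    have := Real.log_nonpos hR0.le hcon
    linarith
  have hn1 : (1 : ℝ) ≤ B.card := by exact_mod_cast card_pos.2 hn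
  set n : ℝ := (B.card : ℝ) with hndef
  set T : ℝ := (G.d - 1 : ℝ) * G.ℓ with hT
  set L : ℝ := Real.log R with hL
  have hDH := G.D_le
  have hHp := G.H_pos
  rcases le_or_gt n (2 * G.D) with h2D | h2D
  · linarith
  have hD0 : (0 : ℝ) < G.D := by linarith [G.D4]
  have hL0 : 0 < L := by linarith
  have hnD : 0 ≤ n / G.D - 2 := by
    rw [sub_nonneg, le_div_iff₀ hD0]; linarith
  have h3 : ∀ v : ι, energy (G.e v) B ≤ n * (2 * (T * L)) -
      n * (n / G.D - 2) * ((((I v).card : ℝ) - 1) * L) := by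
    intro v
    rcases Nat.eq_zero_or_pos (I v).card with h0 | h0
    · have h1 := G.loss_v v hB hR1 (fun x hx => hall x hx v)
      rw [h0]
      have h2 : 0 ≤ n * (n / G.D - 2) * (1 * L) := by positivity
      push_cast
      simp only [← hndef, ← hT, ← hL] at h1
      nlinarith
    · set I' : Finset (Fin G.D) := univ.filter fun i => ∀ x ∈ B, R ≤ G.δ v x i with hI'
      have hmem : ∀ i, i ∈ I' ↔ ∀ x ∈ B, R ≤ G.δ v x i := by
        intro i; rw [hI', mem_filter]; simp
      have hsub : I v ⊆ I' := fun i hi => (hmem i).2 (hI v i hi)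
      have hcle := card_le_card hsub
      obtain ⟨h1, h2⟩ := (G.na v).gain B hB hn R hR1
        (fun x hx y hy => G.e_le v (hall x hx v) (hall y hy v)) I' hmem (by omega)
      refine h2.trans ?_
      have h4 : (1 : ℝ) ≤ (I v).card := by exact_mod_cast h0
      have h5 : ((I v).card : ℝ) ≤ I'.card := by exact_mod_cast hcle
      have h6 : (0 : ℝ) < G.D - I'.card := by
        rw [sub_pos]; exact_mod_cast h1
      have h7 : n / G.D - 2 ≤ (n + 1) / (G.D - I'.card : ℝ) - 2 := by
        have : n / G.D ≤ (n + 1) / (G.D - I'.card : ℝ) := by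
          rw [div_le_div_iff₀ hD0 h6]
          nlinarith
        linarith
      have h8 : (n / G.D - 2) * ((((I v).card : ℝ) - 1) * L) ≤
          ((n + 1) / (G.D - I'.card : ℝ) - 2) * (((I'.card : ℝ) - 1) * L) := by
        refine mul_le_mul h7 (mul_le_mul_of_nonneg_right (by linarith) hL0.le) ?_ (hnD.trans h7)
        exact mul_nonneg (by linarith) hL0.le
      have h9 := mul_le_mul_of_nonneg_left h8 (show (0 : ℝ) ≤ n by linarith)
      have e1 : 2 * (B.card : ℝ) * (T * L) = n * (2 * (T * L)) := by ring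
      rw [e1, mul_assoc n, mul_assoc (B.card : ℝ)]
      linarith
  have hsumE : (∑ u, energy (G.e u) B) ≤ Fintype.card ι * (n * (2 * (T * L))) -
      n * (n / G.D - 2) * ((∑ v, ((I v).card : ℝ)) - Fintype.card ι) * L := by
    refine (sum_le_sum fun u _ => h3 u).trans (le_of_eq ?_)
    rw [sum_sub_distrib, sum_const, card_univ, nsmul_eq_mul, ← mul_sum, ← sum_mul,
      sum_sub_distrib, sum_const, card_univ, nsmul_eq_mul]
    ring
  have hinf' := G.loss_inf hB hn hR0 hR hinf
  have htot := G.energy_sum B hB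
  have hS : (3 : ℝ) * G.D ≤ (∑ v, ((I v).card : ℝ)) - Fintype.card ι := by
    have h1 : (4 * G.D : ℝ) ≤ ∑ v, ((I v).card : ℝ) := by exact_mod_cast hsum
    have h2 : (Fintype.card ι : ℝ) ≤ G.D := by exact_mod_cast G.hsD
    linarith
  have hn0 : 0 < n := by linarith
  have h10 : n * (n / G.D - 2) * (3 * G.D) * L ≤
      n * (n / G.D - 2) * ((∑ v, ((I v).card : ℝ)) - Fintype.card ι) * L := by
    refine mul_le_mul_of_nonneg_right (mul_le_mul_of_nonneg_left hS ?_) hL0.le
    positivity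
  have e2 : n * (n / G.D - 2) * (3 * G.D) * L = n * (3 * (n - 2 * G.D) * L) := by
    field_simp
  rw [e2] at h10
  have h4 : 0 ≤ n * (Fintype.card ι * (2 * (T * L)) - 3 * (n - 2 * G.D) * L +
      ((8 / 3) * (T * L) + 2.1 * n)) := by
    calc (0 : ℝ) ≤ _ := htot
      _ ≤ (Fintype.card ι * (n * (2 * (T * L))) - n * (3 * (n - 2 * G.D) * L)) +
          n * ((8 / 3) * (T * L) + 2.1 * n) := by
            have := hinf'
            simp only [← hndef, ← hT, ← hL] at this
            linarith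
      _ = _ := by ring
  have h5 := nonneg_of_mul_nonneg_right h4 hn0
  have hs0 : (0 : ℝ) ≤ Fintype.card ι := Nat.cast_nonneg _
  have hT0 : 0 ≤ T := by rw [hT]; exact mul_nonneg (by linarith [G.d2]) (Nat.cast_nonneg _)
  have hTd : T ≤ G.d * G.ℓ := by
    rw [hT]
    exact mul_le_mul_of_nonneg_right (by linarith) (Nat.cast_nonneg _)
  have hH : G.H = (Fintype.card ι + 1) * (G.d * G.ℓ) := by unfold H; ring
  have h6 : Fintype.card ι * (2 * (T * L)) + (8 / 3) * (T * L) ≤ 3 * G.H * L := by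
    have h7 : (Fintype.card ι * 2 + 8 / 3 : ℝ) ≤ 3 * (Fintype.card ι + 1) := by linarith
    have h8 : T * L ≤ G.d * G.ℓ * L := mul_le_mul_of_nonneg_right hTd hL0.le
    have h9 : 0 ≤ T * L := by positivity
    rw [hH]
    nlinarith
  have h7 : 3 * (n - 2 * G.D) * L ≤ (3 * G.H + 0.175 * n) * L := by
    nlinarith
  have h8 := le_of_mul_le_mul_right h7 hL0
  linarith

end Glob

end Pool.Agent.T6.H83.LB
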