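import Pool.Agent.T6.H83.LB.Arch
import Pool.Agent.T6.H83.LB.GlobA
import Pool.Agent.T6.H83.LB.Arith

/-!
# Finite invariant sets of rational numbers: the bound
-/

set_option autoImplicit false
set_option linter.unusedSectionVars false
set_option linter.unusedVariables false

namespace Pool.Agent.T6.H83.LB

open Finset Polynomial

/-- the scaled polynomial -/
lemma sys_of_scale {F : Type*} [NormedField F] (f : ℚ[X]) (hd : 2 ≤ f.natDegree) (A : Finset ℚ)
    (hA : ∀ x ∈ A, f.eval x ∈ A) (ι : ℚ →+* F) (α : F) (hα : α ≠ 0)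
    (hn : ‖α‖ ^ (f.natDegree - 1) = ‖ι f.leadingCoeff‖) :
    Sys A (fun x => α * ι x) (fun x => f.eval x) f.natDegree
      (C α * (f.map ι).comp (C α⁻¹ * X)) := by
  have hι : Function.Injective ι := ι.injective
  have hndf : (f.map ι).natDegree = f.natDegree := natDegree_map ι
  have hαi : α⁻¹ ≠ 0 := inv_ne_zero hα
  have hlin : (C α⁻¹ * X : F[X]).natDegree = 1 := natDegree_C_mul_X _ hαi
  have hlinlc : (C α⁻¹ * X : F[X]).leadingCoeff = α⁻¹ := leadingCoeff_C_mul_X _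
  refine ⟨?_, ?_, hA, ?_⟩
  · rw [natDegree_C_mul hα, natDegree_comp, hlin, hndf, mul_one]
  · rw [leadingCoeff_mul, leadingCoeff_C, leadingCoeff_comp (by rw [hlin]; exact one_ne_zero),
      hlinlc, hndf, leadingCoeff_map, norm_mul, norm_mul, ← hn, norm_pow, norm_inv]
    have h0 : ‖α‖ ≠ 0 := norm_ne_zero_iff.2 hα
    have h1 : ‖α‖⁻¹ ^ f.natDegree = ‖α‖⁻¹ ^ (f.natDegree - 1) * ‖α‖⁻¹ := by
      rw [← pow_succ]; congr 1; omega
    rw [h1, inv_pow]
    field_simp
  · intro x hx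
    rw [eval_mul, eval_C, eval_comp, eval_mul, eval_C, eval_X]
    have h1 : α⁻¹ * (α * ι x) = ι x := by field_simp
    rw [h1, eval_map_apply (f := ι) (p := f) x]

/-- the data at a prime number -/
lemma padic_data (p : ℕ) [Fact p.Prime] (f : ℚ[X]) (hd : 2 ≤ f.natDegree) (A : Finset ℚ)
    (hA : ∀ x ∈ A, f.eval x ∈ A) (hne : A.Nonempty) (m ℓ : ℕ) (hm : 2 ≤ f.natDegree ^ m)
    (hℓ : 1 ≤ ℓ) (hcard : A.card ≤ f.natDegree ^ ℓ) :
    ∃ (e : ℚ → ℚ → ℝ) (δ : ℚ → Fin (f.natDegree ^ m) → ℝ),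
      NA A f.natDegree (f.natDegree ^ m) ℓ e δ ∧
      ∀ x y, x ≠ y → (f.natDegree - 1 : ℕ) * Real.log (e x y) =
        Real.log ((padicNorm p (f.leadingCoeff * (x - y) ^ (f.natDegree - 1)) : ℚ) : ℝ) := by
  set d := f.natDegree with hddef
  set ι : ℚ →+* PadicAlgCl p := algebraMap ℚ (PadicAlgCl p) with hι
  have hιx : ∀ x : ℚ, ι x = ((x : ℚ) : PadicAlgCl p) := fun x => by rw [hι]; exact eq_ratCast _ x
  have hf0 : f ≠ 0 := by
    intro h0
    rw [hddef, h0, natDegree_zero] at hd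
    omega
  have ha0 : ι f.leadingCoeff ≠ 0 := by
    rw [Ne, map_eq_zero]; exact leadingCoeff_ne_zero.2 hf0
  obtain ⟨α, hα⟩ := IsAlgClosed.exists_pow_nat_eq (ι f.leadingCoeff) (by omega : 0 < d - 1)
  have hα0 : α ≠ 0 := by
    rintro rfl
    rw [zero_pow (by omega)] at hα
    exact ha0 hα.symm
  have hn : ‖α‖ ^ (d - 1) = ‖ι f.leadingCoeff‖ := by rw [← norm_pow, hα]
  have hsys := sys_of_scale f hd A hA ι α hα0 hn
  set w : ℚ → PadicAlgCl p := fun x => α * ι x with hw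
  set g : (PadicAlgCl p)[X] := C α * (f.map ι).comp (C α⁻¹ * X) with hg
  have hinj : ∀ x ∈ A, ∀ y ∈ A, w x = w y → x = y := by
    intro x _ y _ hxy
    exact ι.injective (mul_left_cancel₀ hα0 hxy)
  obtain ⟨c, hc⟩ := hne
  have hiter := hsys.iter m
  obtain ⟨z, hz⟩ := exists_zeros (by omega : 1 ≤ d ^ m) _ hiter.deg hiter.lc (w c)
  refine ⟨dst w, fun x i => ‖w x - z i‖, ?_, ?_⟩
  · refine ⟨dst_comm w, fun _ _ => norm_nonneg _, ?_, ?_, dst_self w, ?_, ?_⟩
    · intro x y i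
      have := ultra_norm (w x) (z i) (w y)
      rwa [norm_sub_rev (z i)] at this
    · intro x y i
      exact ultra_norm (w x) (w y) (z i)
    · intro B hB R hR hdiam
      exact loss_ultra hinj hsys hd hB hR hdiam ℓ hℓ ((card_le_card hB).trans hcard)
    · intro B hB hBn R hR hdiam I hI hI1
      have hfar : far w z R B = I := by
        ext i
        rw [mem_far, hI]
      have := gain_ultra hinj hsys hd hiter hm hc z hz hB hBn hR hdiam ℓ hℓ
        ((card_le_card hB).trans hcard) (by rw [hfar]; exact hI1)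
      rw [hfar] at this
      push_cast at this ⊢
      exact this
  · intro x y hxy
    rw [← norm_rat, ← hιx, map_mul, map_pow, map_sub, norm_mul, norm_pow, ← hn, ← mul_pow,
      ← norm_mul, Real.log_pow]
    congr 2
    unfold dst
    rw [hw]
    simp only
    rw [mul_sub]

/-- the data at the archimedean place -/
lemma arch_data (f : ℚ[X]) (hd : 2 ≤ f.natDegree) (A : Finset ℚ)
    (hA : ∀ x ∈ A, f.eval x ∈ A) (hne : A.Nonempty) (m ℓ : ℕ) (hm : 4 ≤ f.natDegree ^ m)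
    (hℓ : 1 ≤ ℓ) (hcard : A.card ≤ f.natDegree ^ ℓ) :
    ∃ (w : ℚ → ℝ) (z : Fin (f.natDegree ^ m) → ℂ),
      AR A f.natDegree (f.natDegree ^ m) ℓ w z ∧
      ∀ x y, x ≠ y → (f.natDegree - 1 : ℕ) * Real.log |w x - w y| =
        Real.log |((f.leadingCoeff * (x - y) ^ (f.natDegree - 1) : ℚ) : ℝ)| := by
  set d := f.natDegree with hddef
  have hf0 : f ≠ 0 := by
    intro h0
    rw [hddef, h0, natDegree_zero] at hd
    omega
  have ha0 : ((f.leadingCoeff : ℚ) : ℝ) ≠ 0 := by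
    exact_mod_cast leadingCoeff_ne_zero.2 hf0
  have ha1 : 0 < |((f.leadingCoeff : ℚ) : ℝ)| := abs_pos.2 ha0
  set β : ℝ := |((f.leadingCoeff : ℚ) : ℝ)| ^ ((1 : ℝ) / (d - 1 : ℕ)) with hβ
  have hβ0 : 0 < β := Real.rpow_pos_of_pos ha1 _
  have hd1 : ((d - 1 : ℕ) : ℝ) ≠ 0 := by
    have : d - 1 ≠ 0 := by omega
    exact_mod_cast this
  have hβp : β ^ (d - 1) = |((f.leadingCoeff : ℚ) : ℝ)| := by
    rw [hβ, ← Real.rpow_natCast, ← Real.rpow_mul ha1.le, one_div, inv_mul_cancel₀ hd1,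
      Real.rpow_one]
  set ι : ℚ →+* ℂ := algebraMap ℚ ℂ with hι
  have hιx : ∀ x : ℚ, ι x = (((x : ℚ) : ℝ) : ℂ) := fun x => by
    rw [hι, eq_ratCast]; push_cast; rfl
  have hn : ‖(β : ℂ)‖ ^ (d - 1) = ‖ι f.leadingCoeff‖ := by
    rw [hιx, Complex.norm_real, Complex.norm_real, Real.norm_eq_abs, Real.norm_eq_abs,
      abs_of_pos hβ0, hβp]
  have hβc : (β : ℂ) ≠ 0 := by exact_mod_cast hβ0.ne'
  have hsys0 := sys_of_scale f hd A hA ι (β : ℂ) hβc hn
  set w : ℚ → ℝ := fun x => β * x with hw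
  have hwc : (fun x : ℚ => (β : ℂ) * ι x) = fun x => ((w x : ℝ) : ℂ) := by
    funext x
    rw [hιx, hw]; push_cast; rfl
  rw [hwc] at hsys0
  set w' : ℚ → ℂ := fun x => ((w x : ℝ) : ℂ) with hw'
  have hinjw : ∀ x y, w x = w y → x = y := by
    intro x y hxy
    have := mul_left_cancel₀ hβ0.ne' hxy
    exact_mod_cast this
  have hinj : ∀ x ∈ A, ∀ y ∈ A, w' x = w' y → x = y := by
    intro x _ y _ hxy
    exact hinjw x y (Complex.ofReal_injective hxy)
  have hdst : dst w' = fun x y => |w x - w y| := by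
    funext x y
    unfold dst
    rw [hw']
    simp only
    rw [← Complex.ofReal_sub, Complex.norm_real, Real.norm_eq_abs]
  obtain ⟨c, hc⟩ := hne
  have hiter := hsys0.iter m
  obtain ⟨z, hz⟩ := exists_zeros (by omega : 1 ≤ d ^ m) _ hiter.deg hiter.lc (w' c)
  refine ⟨w, z, ⟨fun x _ y _ h => hinjw x y h, ?_, ?_⟩, ?_⟩
  · intro B hB R hR hdiam
    have := loss_arch hinj hsys0 hd hB hR (by rw [hdst]; exact hdiam) ℓ hℓ
      ((card_le_card hB).trans hcard)
    rwa [hdst] at this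
  · intro x₀ hx₀ r hr hr12 J hJ hJ2 B hB hBn hdiam
    have := gain_arch hinj hiter hm hc z hz hx₀ hr hr12 J hJ hJ2 hB hBn (by
      intro x hx
      have h1 := hdiam x hx
      rw [hw']
      simp only
      rwa [← Complex.ofReal_sub, Complex.norm_real, Real.norm_eq_abs])
    rw [hdst] at this
    push_cast at this ⊢
    exact this
  · intro x y hxy
    have h1 : w x - w y = β * ((x : ℝ) - y) := by rw [hw]; ring
    rw [h1]
    push_cast
    rw [abs_mul, abs_mul, abs_pow, ← hβp, abs_of_pos hβ0, ← mul_pow, Real.log_pow]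

/-- the absolute constant -/
noncomputable def C1 : ℝ := 24 * (12 * Real.exp 12 + 2) + 684 + 150

lemma C1_ge : 1 ≤ C1 := by
  unfold C1
  have := Real.exp_pos 12
  linarith

/-- **The bound for finite invariant sets.** -/
theorem invariant_bound (f : ℚ[X]) (hd : 2 ≤ f.natDegree) (A : Finset ℚ)
    (hA : ∀ x ∈ A, f.eval x ∈ A) (hA2 : A.Nonempty) (T : Finset ℕ) (hT : ∀ p ∈ T, p.Prime)
    (hgood : ∀ (p : ℕ) (hp : p.Prime), p ∉ T → @PotGoodAt p ⟨hp⟩ f) (ℓ : ℕ) (hℓ : 1 ≤ ℓ)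
    (hcard : A.card ≤ f.natDegree ^ ℓ) :
    (A.card : ℝ) ≤ C1 * ((T.card + 1) * f.natDegree * ℓ) := by
  classical
  set d := f.natDegree with hddef
  set S : ℕ := 4 * (T.card + 1) with hS
  set m : ℕ := Nat.clog d S with hm
  have h1 : S ≤ d ^ m := Nat.le_pow_clog (by omega) S
  have hm1 : 1 ≤ m := by
    rw [hm]
    exact Nat.clog_pos (by omega) (by omega)
  have h2 : d ^ (m - 1) < S := by
    have := Nat.pow_pred_clog_lt_self (b := d) (by omega) (x := S) (by omega)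
    simpa [Nat.pred_eq_sub_one] using this
  have h3 : d ^ m = d ^ (m - 1) * d := by rw [← pow_succ]; congr 1; omega
  have hSm : 4 * (T.card + 1) ≤ d ^ m := h1
  have hm2 : 2 ≤ d ^ m := le_trans (by omega) hSm
  have hm4 : 4 ≤ d ^ m := le_trans (by omega) hSm
  have hm0 : 1 ≤ d ^ m := le_trans (by omega) hSm
  have hp : ∀ v : {p // p ∈ T}, ∃ (e : ℚ → ℚ → ℝ) (δ : ℚ → Fin (d ^ m) → ℝ),
      NA A d (d ^ m) ℓ e δ ∧ ∀ x y, x ≠ y → (d - 1 : ℕ) * Real.log (e x y) =
        Real.log ((padicNorm v.1 (f.leadingCoeff * (x - y) ^ (d - 1)) : ℚ) : ℝ) := by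
    intro v
    have : Fact (v.1).Prime := ⟨hT _ v.2⟩
    exact padic_data v.1 f hd A hA hA2 m ℓ hm2 hℓ hcard
  choose e δ hna he using hp
  obtain ⟨w, z, har, hw⟩ := arch_data f hd A hA hA2 m ℓ hm4 hℓ hcard
  have hmed : ∀ v x, ∃ r, Med (δ v x) r := fun v x =>
    exists_med hm0 (δ v x) ((hna v).δ_nonneg x)
  choose r hr using hmed
  have hmedinf : ∀ x, ∃ r, Med (fun i => ‖(w x : ℂ) - z i‖) r := fun x =>
    exists_med hm0 _ (fun _ => norm_nonneg _)
  choose rinf hrinf using hmedinf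
  have hf0 : f ≠ 0 := by
    intro h0
    rw [hddef, h0, natDegree_zero] at hd
    omega
  let G : Glob ℚ {p // p ∈ T} :=
    { A := A
      d := d
      D := d ^ m
      ℓ := ℓ
      hd := hd
      hD := hm4
      hℓ := hℓ
      hsD := by rw [Fintype.card_coe]; exact le_trans (by omega) hSm
      hDd := by
        rw [Fintype.card_coe, h3]
        exact Nat.mul_le_mul_right _ (by omega)
      hcard := hcard
      e := e
      δ := δ
      na := hna
      w := w
      z := z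
      ar := har
      r := r
      hr := hr
      rinf := rinf
      hrinf := hrinf
      prod := by
        intro x hx y hy hxy
        set q : ℚ := f.leadingCoeff * (x - y) ^ (d - 1) with hq
        have hq0 : q ≠ 0 := mul_ne_zero (leadingCoeff_ne_zero.2 hf0)
          (pow_ne_zero _ (sub_ne_zero.2 hxy))
        have h4 := global_ineq T hT q hq0 (fun p hp hpT => by
          have : Fact p.Prime := ⟨hp⟩
          exact potGood_le p f hd (hgood p hp hpT) A hA x hx y hy)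
        have h5 : ∑ p ∈ T, Real.log ((padicNorm p q : ℚ) : ℝ) =
            ∑ v : {p // p ∈ T}, (d - 1 : ℕ) * Real.log (e v x y) := by
          rw [← sum_coe_sort T (fun p => Real.log ((padicNorm p q : ℚ) : ℝ))]
          exact sum_congr rfl fun v _ => (he v x y hxy).symm
        rw [h5, ← hw x y hxy, ← mul_sum, ← mul_add, add_comm] at h4
        have hd1 : (0 : ℝ) < ((d - 1 : ℕ) : ℝ) := by
          have : 0 < d - 1 := by omega
          exact_mod_cast this
        exact nonneg_of_mul_nonneg_right h4 hd1 }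
  have h4 := G.bound
  have h5 : G.H = (T.card + 1) * d * ℓ := by
    show ((Fintype.card {p // p ∈ T} : ℝ) + 1) * d * ℓ = _
    rw [Fintype.card_coe]
  rw [h5] at h4
  exact h4

end Pool.Agent.T6.H83.LB
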