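import Pool.Agent.T6.H83.LB.Zeros

/-!
# The local estimates at a nonarchimedean place
-/

set_option autoImplicit false
set_option linter.unusedSectionVars false
set_option linter.unusedVariables false

namespace Pool.Agent.T6.H83.LB

open Finset Polynomial

variable {α : Type*} [DecidableEq α] {F : Type*} [NormedField F]

/-- the zeros which are at a distance at least `R` from all points of `B` -/
noncomputable def far {d : ℕ} (w : α → F) (z : Fin d → F) (R : ℝ) (B : Finset α) :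
    Finset (Fin d) := by
  classical exact univ.filter fun i => ∀ x ∈ B, R ≤ ‖w x - z i‖

lemma mem_far {d : ℕ} {w : α → F} {z : Fin d → F} {R : ℝ} {B : Finset α} {i : Fin d} :
    i ∈ far w z R B ↔ ∀ x ∈ B, R ≤ ‖w x - z i‖ := by
  classical
  unfold far
  simp

lemma pow_le_prod {ι : Type*} (s : Finset ι) (u : ι → ℝ) (R : ℝ) (hR : 0 ≤ R)
    (h : ∀ i ∈ s, R ≤ u i) : R ^ s.card ≤ ∏ i ∈ s, u i := by
  rw [← prod_const]
  exact prod_le_prod (fun _ _ => hR) h

lemma ultra_norm [IsUltrametricDist F] (a b c : F) : ‖a - c‖ ≤ max ‖a - b‖ ‖b - c‖ := by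
  have := dist_triangle_max a b c
  simpa [dist_eq_norm] using this

theorem far_prod [IsUltrametricDist F] {A : Finset α} {w : α → F} {f : α → α} {d : ℕ} {g : F[X]}
    (h : Sys A w f d g) (hd : 2 ≤ d) {c : α} (hc : c ∈ A) (z : Fin d → F)
    (hz : ∀ t, ‖g.eval t - w c‖ = ∏ i, ‖t - z i‖) {B : Finset α} (hBA : B ⊆ A)
    (hB : B.Nonempty) {R : ℝ} (hR : 1 < R) (hdiam : ∀ x ∈ B, ∀ y ∈ B, dst w x y ≤ R)
    (hI : 1 ≤ (far w z R B).card ∨ ∃ x ∈ A, ∃ y ∈ A, R < dst w x y) :
    1 ≤ (far w z R B).card ∧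
      ∀ x ∈ B, ∏ i ∈ (far w z R B)ᶜ, ‖w x - z i‖ ≤
        Real.exp (-(((far w z R B).card : ℝ) - 1) * Real.log R) := by
  classical
  set I := far w z R B with hIdef
  obtain ⟨p, hp, q, hq, hmax⟩ := exists_diam w A ⟨c, hc⟩
  set M := dst w p q with hM
  have hR0 : 0 < R := by linarith
  have hall : ∀ x ∈ A, ∏ i, ‖w x - z i‖ ≤ M := by
    intro x hx
    rw [← hz, h.ev x hx]
    exact hmax _ (h.inv x hx) _ hc
  have hexp : ∀ n : ℕ, 1 ≤ n → Real.exp (-((n : ℝ) - 1) * Real.log R) * R ^ (n - 1) = 1 := by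
    intro n hn
    rw [← Real.exp_log hR0, ← Real.exp_nat_mul, Real.exp_log hR0, ← Real.exp_add,
      Nat.cast_sub hn, Real.exp_eq_one_iff]
    push_cast
    ring
  rcases lt_or_ge R M with hRM | hRM
  · -- a zero far away
    obtain ⟨b, hb⟩ := hB
    have hM0 : 0 < M := by linarith
    have h1 : ∃ s ∈ A, M ≤ dst w s b := by
      have h2 := ultra_norm (w p) (w b) (w q)
      rcases le_max_iff.1 h2 with h3 | h3
      · exact ⟨p, hp, h3⟩
      · exact ⟨q, hq, by rw [dst_comm]; exact h3⟩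
    obtain ⟨s, hs, hsb⟩ := h1
    have h2 : ∃ j, M ≤ ‖w b - z j‖ := by
      by_contra hcon
      push Not at hcon
      have h3 : ∀ i ∈ (univ : Finset (Fin d)), M ≤ ‖w s - z i‖ := by
        intro i _
        have h4 := ultra_norm (w s) (z i) (w b)
        rcases le_max_iff.1 h4 with h5 | h5
        · exact hsb.trans h5
        · have := hcon i
          rw [norm_sub_rev] at this
          exact absurd (hsb.trans h5) (not_le.2 this)
      have h4 := pow_le_prod univ (fun i => ‖w s - z i‖) M hM0.le h3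
      rw [card_univ, Fintype.card_fin] at h4
      have h5 := h4.trans (hall s hs)
      have h6 : M ^ 2 ≤ M ^ d := pow_le_pow_right₀ (by linarith) hd
      nlinarith
    obtain ⟨j, hj⟩ := h2
    have h3 : ∀ x ∈ B, M ≤ ‖w x - z j‖ := by
      intro x hx
      have h4 := ultra_norm (w b) (w x) (z j)
      rcases le_max_iff.1 (hj.trans h4) with h5 | h5
      · have := hdiam b hb x hx
        exact absurd (h5.trans this) (not_le.2 hRM)
      · exact h5
    have hjI : j ∈ I := by
      rw [hIdef, mem_far]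
      intro x hx
      exact hRM.le.trans (h3 x hx)
    have hcard : 1 ≤ I.card := card_pos.2 ⟨j, hjI⟩
    refine ⟨hcard, fun x hx => ?_⟩
    have h4 : M * R ^ (I.card - 1) ≤ ∏ i ∈ I, ‖w x - z i‖ := by
      rw [← mul_prod_erase I (fun i => ‖w x - z i‖) hjI, ← card_erase_of_mem hjI]
      refine mul_le_mul (h3 x hx) ?_ (by positivity) (norm_nonneg _)
      refine pow_le_prod _ _ _ hR0.le fun i hi => ?_
      exact (mem_far.1 (mem_of_mem_erase hi)) x hx
    have h5 := hall x (hBA hx)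
    rw [← prod_compl_mul_prod I (fun i => ‖w x - z i‖)] at h5
    set Q := ∏ i ∈ Iᶜ, ‖w x - z i‖ with hQ
    have hQ0 : 0 ≤ Q := prod_nonneg fun i _ => norm_nonneg _
    have h6 : Q * (M * R ^ (I.card - 1)) ≤ M :=
      (mul_le_mul_of_nonneg_left h4 hQ0).trans h5
    have h7 : Q * R ^ (I.card - 1) ≤ 1 := by
      have : (Q * R ^ (I.card - 1)) * M ≤ 1 * M := by linarith [h6]
      exact le_of_mul_le_mul_right this hM0
    have h8 := hexp I.card hcard
    have h9 : 0 < R ^ (I.card - 1) := by positivity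
    rw [← h8] at h7
    exact le_of_mul_le_mul_right h7 h9
  · have hcard : 1 ≤ I.card := by
      rcases hI with hI | ⟨x, hx, y, hy, hxy⟩
      · exact hI
      · exact absurd (hmax x hx y hy) (not_le.2 (lt_of_le_of_lt hRM hxy))
    refine ⟨hcard, fun x hx => ?_⟩
    have h4 : R ^ I.card ≤ ∏ i ∈ I, ‖w x - z i‖ :=
      pow_le_prod _ _ _ hR0.le fun i hi => (mem_far.1 hi) x hx
    have h5 := hall x (hBA hx)
    rw [← prod_compl_mul_prod I (fun i => ‖w x - z i‖)] at h5
    set Q := ∏ i ∈ Iᶜ, ‖w x - z i‖ with hQ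
    have hQ0 : 0 ≤ Q := prod_nonneg fun i _ => norm_nonneg _
    have h6 : Q * R ^ I.card ≤ R :=
      ((mul_le_mul_of_nonneg_left h4 hQ0).trans h5).trans hRM
    have h7 : Q * R ^ (I.card - 1) ≤ 1 := by
      have h8 : R ^ I.card = R ^ (I.card - 1) * R := by
        rw [← pow_succ]; congr 1; omega
      rw [h8] at h6
      have : (Q * R ^ (I.card - 1)) * R ≤ 1 * R := by linarith
      exact le_of_mul_le_mul_right this hR0
    have h8 := hexp I.card hcard
    have h9 : 0 < R ^ (I.card - 1) := by positivity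
    rw [← h8] at h7
    exact le_of_mul_le_mul_right h7 h9

/-- The monic polynomial whose zeros are the zeros near `B`. -/
theorem far_small [IsUltrametricDist F] {A : Finset α} {w : α → F} {f : α → α} {d : ℕ} {g : F[X]}
    (h : Sys A w f d g) (hd : 2 ≤ d) {c : α} (hc : c ∈ A) (z : Fin d → F)
    (hz : ∀ t, ‖g.eval t - w c‖ = ∏ i, ‖t - z i‖) {B : Finset α} (hBA : B ⊆ A)
    (hB : B.Nonempty) {R : ℝ} (hR : 1 < R) (hdiam : ∀ x ∈ B, ∀ y ∈ B, dst w x y ≤ R)
    (hI : 1 ≤ (far w z R B).card ∨ ∃ x ∈ A, ∃ y ∈ A, R < dst w x y) :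
    1 ≤ (far w z R B).card ∧ (far w z R B).card < d ∧
      SmallOn w B (d - (far w z R B).card) (-((((far w z R B).card : ℝ) - 1) * Real.log R)) := by
  classical
  obtain ⟨h1, h2⟩ := far_prod h hd hc z hz hBA hB hR hdiam hI
  set I := far w z R B with hIdef
  have hcc : Iᶜ.card = d - I.card := by rw [card_compl, Fintype.card_fin]
  have hle : I.card ≤ d := by simpa using card_le_univ I
  have hlog : 0 < Real.log R := Real.log_pos hR
  have hlt : I.card < d := by
    rcases lt_or_eq_of_le hle with h3 | h3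
    · exact h3
    · exfalso
      obtain ⟨b, hb⟩ := hB
      have h4 := h2 b hb
      have h5 : Iᶜ = ∅ := by
        rw [← card_eq_zero, hcc, h3, Nat.sub_self]
      rw [h5, prod_empty, h3] at h4
      have h6 : Real.exp (-((d : ℝ) - 1) * Real.log R) < 1 := by
        rw [Real.exp_lt_one_iff]
        have : (2 : ℝ) ≤ d := by exact_mod_cast hd
        nlinarith
      linarith
  refine ⟨h1, hlt, ?_⟩
  rw [← hcc]
  refine smallOn_prod w B z Iᶜ _ fun x hx => ?_
  have := h2 x hx
  rwa [neg_mul] at this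

/-- Small monic polynomials of all degrees. -/
theorem basis_ultra [IsUltrametricDist F] [IsAlgClosed F] {A : Finset α} {w : α → F} {f : α → α}
    {d : ℕ} {g : F[X]} (h : Sys A w f d g) (hd : 2 ≤ d) {B : Finset α} (hBA : B ⊆ A)
    (hB : B.Nonempty) {R : ℝ} (hR : 1 < R) (hdiam : ∀ x ∈ B, ∀ y ∈ B, dst w x y ≤ R)
    (ℓ : ℕ) (hℓ : 1 ≤ ℓ) : ∀ i < d ^ ℓ, SmallOn w B i ((d - 1 : ℝ) * ℓ * Real.log R) := by
  obtain ⟨b, hb⟩ := hB
  have hlog : 0 < Real.log R := Real.log_pos hR
  have hR0 : 0 < R := by linarith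
  by_cases hM : ∃ x ∈ A, ∃ y ∈ A, R < dst w x y
  · intro i hi
    obtain ⟨z, hz⟩ := exists_zeros (by omega) g h.deg h.lc (w b)
    obtain ⟨h1, h2, h3⟩ := far_small h hd (hBA hb) z hz hBA ⟨b, hb⟩ hR hdiam (Or.inr hM)
    set I := far w z R B
    have h4 : SmallOn w B (d - I.card) (-0) := by
      refine h3.mono ?_
      have h5 : (1 : ℝ) ≤ I.card := by exact_mod_cast h1
      nlinarith
    have h5 : SmallOn w B (i % (d - I.card)) ((d - 1 : ℝ) * ℓ * Real.log R) := by
      have h6 : SmallOn w B 1 (Real.log R) := SmallOn.lin (b := b) fun x hx => by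
        rw [Real.exp_log hR0]
        exact hdiam x hx b hb
      have h7 := h6.pow (i % (d - I.card))
      rw [mul_one] at h7
      refine h7.mono ?_
      have h8 : i % (d - I.card) + 1 ≤ d := by
        have := Nat.mod_lt i (by omega : 0 < d - I.card)
        omega
      have h9 : ((i % (d - I.card) : ℕ) : ℝ) + 1 ≤ d := by exact_mod_cast h8
      have h10 : (1 : ℝ) ≤ ℓ := by exact_mod_cast hℓ
      have h11 : (0 : ℝ) ≤ (d : ℝ) - 1 := by
        have : (2 : ℝ) ≤ d := by exact_mod_cast hd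
        linarith
      refine mul_le_mul_of_nonneg_right ?_ hlog.le
      nlinarith
    have h6 := SmallOn.mix (by omega) h4 i h5
    simpa using h6
  · push Not at hM
    intro i hi
    refine (smallOn_digits h hd (hBA hb) hlog.le ?_ ℓ i hi).subset hBA
    intro x hx y hy
    rw [Real.exp_log hR0]
    exact hM x hx y hy

/-- The energy at a nonarchimedean place: upper bound in terms of the diameter. -/
theorem loss_ultra [IsUltrametricDist F] [IsAlgClosed F] {A : Finset α} {w : α → F} {f : α → α}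
    {d : ℕ} {g : F[X]} (hw : ∀ x ∈ A, ∀ y ∈ A, w x = w y → x = y)
    (h : Sys A w f d g) (hd : 2 ≤ d) {B : Finset α} (hBA : B ⊆ A)
    {R : ℝ} (hR : 1 < R) (hdiam : ∀ x ∈ B, ∀ y ∈ B, dst w x y ≤ R)
    (ℓ : ℕ) (hℓ : 1 ≤ ℓ) (hcard : B.card ≤ d ^ ℓ) :
    energy (dst w) B ≤ 2 * B.card * ((d - 1 : ℝ) * ℓ * Real.log R) := by
  rcases B.eq_empty_or_nonempty with rfl | hB
  · simp [energy]
  have h1 := energy_le_ultra w B (fun x hx y hy => hw x (hBA hx) y (hBA hy))
    (fun _ => (d - 1 : ℝ) * ℓ * Real.log R)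
    (fun j hj => basis_ultra h hd hBA hB hR hdiam ℓ hℓ j (lt_of_lt_of_le hj hcard))
  rw [sum_const, card_range, nsmul_eq_mul] at h1
  linarith

/-- The energy at a nonarchimedean place, with the gain from the far zeros of an iterate. -/
theorem gain_ultra [IsUltrametricDist F] [IsAlgClosed F] {A : Finset α} {w : α → F}
    {f f' : α → α} {d D : ℕ} {g g' : F[X]} (hw : ∀ x ∈ A, ∀ y ∈ A, w x = w y → x = y)
    (h : Sys A w f d g) (hd : 2 ≤ d) (h' : Sys A w f' D g') (hD : 2 ≤ D)
    {c : α} (hc : c ∈ A) (z : Fin D → F)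
    (hz : ∀ t, ‖g'.eval t - w c‖ = ∏ i, ‖t - z i‖)
    {B : Finset α} (hBA : B ⊆ A) (hB : B.Nonempty)
    {R : ℝ} (hR : 1 < R) (hdiam : ∀ x ∈ B, ∀ y ∈ B, dst w x y ≤ R)
    (ℓ : ℕ) (hℓ : 1 ≤ ℓ) (hcard : B.card ≤ d ^ ℓ) (hI : 1 ≤ (far w z R B).card) :
    (far w z R B).card < D ∧
    energy (dst w) B ≤ 2 * B.card * ((d - 1 : ℝ) * ℓ * Real.log R) -
      B.card * ((B.card + 1) / (D - (far w z R B).card : ℝ) - 2) *
        (((far w z R B).card - 1) * Real.log R) := by
  obtain ⟨h1, h2, h3⟩ := far_small h' hD hc z hz hBA hB hR hdiam (Or.inl hI)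
  refine ⟨h2, ?_⟩
  have hlog : 0 < Real.log R := Real.log_pos hR
  have h4 : (1 : ℝ) ≤ (far w z R B).card := by exact_mod_cast h1
  have h5 := energy_ultra_mix w B (fun x hx y hy => hw x (hBA hx) y (hBA hy))
    (D - (far w z R B).card) (by omega) ((d - 1 : ℝ) * ℓ * Real.log R)
    ((((far w z R B).card : ℝ) - 1) * Real.log R) (by nlinarith) h3
    (fun j hj => basis_ultra h hd hBA hB hR hdiam ℓ hℓ j (lt_of_lt_of_le hj hcard))
  rw [Nat.cast_sub h2.le] at h5
  exact h5

end Pool.Agent.T6.H83.LB
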