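import Pool.Agent.T6.H83.LB.Basis

/-!
# Polynomial maps with leading coefficient of norm one and a finite invariant set
-/

set_option autoImplicit false
set_option linter.unusedSectionVars false
set_option linter.unusedVariables false

namespace Pool.Agent.T6.H83.LB

open Finset Polynomial

variable {α : Type*} [DecidableEq α] {F : Type*} [NormedField F]

/-- The polynomial `g` of degree `d`, with leading coefficient of norm one, acts on the points `w x`,
`x ∈ A`, as the self-map `f` of `A`. -/
structure Sys (A : Finset α) (w : α → F) (f : α → α) (d : ℕ) (g : F[X]) : Prop where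
  deg : g.natDegree = d
  lc : ‖g.leadingCoeff‖ = 1
  inv : ∀ x ∈ A, f x ∈ A
  ev : ∀ x ∈ A, g.eval (w x) = w (f x)

lemma Sys.iter {A : Finset α} {w : α → F} {f : α → α} {d : ℕ} {g : F[X]} (h : Sys A w f d g)
    (m : ℕ) : Sys A w (f^[m]) (d ^ m) ((g.comp)^[m] X) := by
  induction m with
  | zero =>
    refine ⟨by simp, by simp, fun x hx => by simpa using hx, fun x hx => by simp⟩
  | succ m ih =>
    refine ⟨?_, ?_, ?_, ?_⟩
    · rw [Function.iterate_succ_apply', natDegree_comp, h.deg, ih.deg, pow_succ, mul_comm]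
    · rw [Function.iterate_succ_apply']
      by_cases h0 : (g.comp^[m] X).natDegree = 0
      · rw [ih.deg] at h0
        have hd : d = 0 := by
          by_contra hd
          exact (pow_ne_zero m hd) h0
        have hm : m ≠ 0 := by
          rintro rfl
          simp at h0
        -- `g` is constant
        have hg : g = C (g.coeff 0) := eq_C_of_natDegree_eq_zero (by rw [h.deg, hd])
        rw [hg, C_comp, ← hg]
        exact h.lc
      · rw [leadingCoeff_comp h0, norm_mul, norm_pow, h.lc, ih.lc]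
        simp
    · intro x hx
      rw [Function.iterate_succ_apply']
      exact h.inv _ (ih.inv x hx)
    · intro x hx
      rw [Function.iterate_succ_apply', Function.iterate_succ_apply', eval_comp, ih.ev x hx,
        h.ev _ (ih.inv x hx)]

/-- The zeros of `g - c`. -/
lemma exists_zeros [IsAlgClosed F] {d : ℕ} (hd : 1 ≤ d) (g : F[X]) (hg : g.natDegree = d)
    (hl : ‖g.leadingCoeff‖ = 1) (c : F) :
    ∃ z : Fin d → F, ∀ t, ‖g.eval t - c‖ = ∏ i, ‖t - z i‖ := by
  set p : F[X] := g - C c with hp
  have hdeg : p.natDegree = d := by rw [hp, natDegree_sub_C, hg]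
  have hlc : p.leadingCoeff = g.leadingCoeff := by
    rw [hp]
    apply leadingCoeff_sub_of_degree_lt
    refine lt_of_le_of_lt degree_C_le ?_
    rw [← natDegree_pos_iff_degree_pos, hg]
    omega
  have hs : p.Splits := IsAlgClosed.splits p
  have hcard : p.roots.card = d := by rw [← hdeg]; exact (splits_iff_card_roots.1 hs)
  have hprod : p = C p.leadingCoeff * (p.roots.map fun a => X - C a).prod :=
    hs.eq_prod_roots
  have hlen : p.roots.toList.length = d := by rw [Multiset.length_toList, hcard]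
  refine ⟨fun i => p.roots.toList.get (Fin.cast hlen.symm i), fun t => ?_⟩
  have h1 : g.eval t - c = p.eval t := by rw [hp]; simp
  rw [h1]
  have h2 : p.eval t = p.leadingCoeff * (p.roots.map fun a => t - a).prod := by
    conv_lhs => rw [hprod]
    rw [eval_mul, eval_C, eval_multiset_prod, Multiset.map_map]
    simp
  rw [h2, norm_mul, hlc, hl, one_mul]
  have h3 : ∀ (l : List F) (hl : l.length = d),
      ‖(l.map fun a => t - a).prod‖ = ∏ i : Fin d, ‖t - l.get (Fin.cast hl.symm i)‖ := by
    intro l hl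
    subst hl
    rw [List.norm_prod, ← List.prod_ofFn]
    congr 1
    apply List.ext_get
    · simp
    · intro n h1 h2
      simp
  have h4 := h3 p.roots.toList hlen
  rw [← h4]
  conv_lhs => rw [← Multiset.coe_toList p.roots]
  rw [Multiset.map_coe, Multiset.prod_coe]

/-- a pair of points of `A` at the largest distance -/
lemma exists_diam (w : α → F) (A : Finset α) (hA : A.Nonempty) :
    ∃ p ∈ A, ∃ q ∈ A, ∀ x ∈ A, ∀ y ∈ A, dst w x y ≤ dst w p q := by
  obtain ⟨a, ha⟩ := hA
  obtain ⟨⟨p, q⟩, hpq, hmax⟩ := Finset.exists_max_image (A ×ˢ A) (fun s => dst w s.1 s.2)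
    ⟨(a, a), mem_product.2 ⟨ha, ha⟩⟩
  rw [mem_product] at hpq
  exact ⟨p, hpq.1, q, hpq.2, fun x hx y hy => hmax (x, y) (mem_product.2 ⟨hx, hy⟩)⟩

/-- the monic polynomial with some of the zeros -/
lemma smallOn_prod {d : ℕ} (w : α → F) (B : Finset α) (z : Fin d → F) (J : Finset (Fin d)) (l : ℝ)
    (h : ∀ x ∈ B, ∏ i ∈ J, ‖w x - z i‖ ≤ Real.exp l) : SmallOn w B J.card l := by
  refine ⟨∏ i ∈ J, (X - C (z i)), monic_prod_of_monic _ _ fun i _ => monic_X_sub_C _, ?_, ?_⟩
  · rw [natDegree_prod_of_monic _ _ fun i _ => monic_X_sub_C _]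
    simp
  · intro x hx
    rw [eval_prod, norm_prod]
    simpa using h x hx

/-- The digit basis. -/
lemma smallOn_digits {A : Finset α} {w : α → F} {f : α → α} {d : ℕ} {g : F[X]}
    (h : Sys A w f d g) (hd : 2 ≤ d) {c : α} (hc : c ∈ A) {L : ℝ} (hL : 0 ≤ L)
    (hdiam : ∀ x ∈ A, ∀ y ∈ A, dst w x y ≤ Real.exp L) (ℓ : ℕ) :
    ∀ i < d ^ ℓ, SmallOn w A i ((d - 1 : ℝ) * ℓ * L) := by
  have hd1 : (0 : ℝ) ≤ (d : ℝ) - 1 := by
    have : (2 : ℝ) ≤ d := by exact_mod_cast hd
    linarith
  induction ℓ with
  | zero =>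
    intro i hi
    rw [pow_zero] at hi
    have : i = 0 := by omega
    subst this
    simpa using SmallOn.one w A
  | succ ℓ ih =>
    intro i hi
    have hi' : i / d < d ^ ℓ := by
      rw [Nat.div_lt_iff_lt_mul (by omega)]
      rwa [pow_succ] at hi
    obtain ⟨Q, hQ1, hQ2, hQ3⟩ := ih (i / d) hi'
    have hgc : g ≠ 0 := by
      intro h0
      have := h.lc
      rw [h0] at this
      simp at this
    have hlc0 : g.leadingCoeff ≠ 0 := leadingCoeff_ne_zero.2 hgc
    have hndg : g.natDegree ≠ 0 := by rw [h.deg]; omega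
    set u : F := (g.leadingCoeff ^ (i / d))⁻¹ with hu
    have hun : ‖u‖ = 1 := by rw [hu, norm_inv, norm_pow, h.lc, one_pow, inv_one]
    have hlcc : (Q.comp g).leadingCoeff = g.leadingCoeff ^ (i / d) := by
      rw [leadingCoeff_comp hndg, hQ1.leadingCoeff, one_mul, hQ2]
    have h1 : SmallOn w A (d * (i / d)) ((d - 1 : ℝ) * ℓ * L) := by
      refine ⟨C u * Q.comp g, ?_, ?_, ?_⟩
      · rw [Monic, leadingCoeff_mul, leadingCoeff_C, hlcc, hu]
        exact inv_mul_cancel₀ (pow_ne_zero _ hlc0)
      · rw [natDegree_C_mul (by rw [← norm_ne_zero_iff, hun]; exact one_ne_zero), natDegree_comp,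
          hQ2, h.deg, mul_comm]
      · intro x hx
        rw [eval_mul, eval_C, eval_comp, h.ev x hx, norm_mul, hun, one_mul]
        exact hQ3 _ (h.inv x hx)
    have h2 : SmallOn w A (i % d) ((d - 1 : ℝ) * L) := by
      have h3 : SmallOn w A 1 L := SmallOn.lin (b := c) fun x hx => hdiam x hx c hc
      have h4 := h3.pow (i % d)
      rw [mul_one] at h4
      refine h4.mono ?_
      have h5 : ((i % d : ℕ) : ℝ) ≤ (d : ℝ) - 1 := by
        have h6 : i % d + 1 ≤ d := Nat.mod_lt i (by omega)
        have h7 : ((i % d : ℕ) : ℝ) + 1 ≤ d := by exact_mod_cast h6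
        linarith
      exact mul_le_mul_of_nonneg_right h5 hL
    have h6 := h2.mul h1
    have e1 : i % d + d * (i / d) = i := Nat.mod_add_div i d
    rw [e1] at h6
    refine h6.mono (le_of_eq ?_)
    push_cast
    ring

end Pool.Agent.T6.H83.LB
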